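import Pool.Agent.H7N.Min

/-!
JOB NEG-AND. The error of an AND gate on planted cliques (definitions in BDefs.lean, Min.lean; use
`card_minimal_le`, `exists_minim`, `mem_minim` of Min.lean, which is a separate job).

* `pr_plant_sub`: the probability that U a.1 = a.2 for all a ∈ S is (1/w)^|S| if S has at most one
  vertex in each row, and 0 otherwise. (E.g. induction on S with `pr_forall_le` for the coordinates
  {a.1}: if two different elements of S are in the same row the event is empty, else the index map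
  a ↦ a.1 is injective on S, D a = {a.1}, and one coordinate has probability 1/w.)
* `kc_plant`: if Kc S (plant U) and S.card >= 2 then U a.1 = a.2 for all a ∈ S.
* `empty_mem`: a closed family with a member of size <= 1 contains ∅ (its Acc is always true).
* `pr_and_error`: let Acc 𝓐 (plant U), Acc 𝓑 (plant U). Take minimal S ∈ 𝓐, T ∈ 𝓑 with Kc. If
  (S ∪ T).card <= l then S ∪ T ∈ 𝓐 ∩ 𝓑 (`Closed.up`) and Kc (S ∪ T) (plant U) (if S.card >= 2 all
  its vertices are (a, U a); if S.card <= 1 then ∅ ∈ 𝓐, S = ∅; same for T). Otherwise 2 S.card > l or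
  2 T.card > l, in particular that set has >= 2 elements, is a minimal member and satisfies
  U a.1 = a.2 for all its a. The probability that some S ∈ minim 𝓐 j, l < 2j <= 2l, is in the graph of U
  is at most (l m)^j (1/w)^j <= (1/4)^j, and sum_{j : l < 2j} 4^-j <= 2^-l; same for 𝓑.
-/

namespace Pool.Agent.H7N

open Finset Pool.Agent.H24

variable {k w N l m : ℕ}

theorem pr_coord_eq (hw : 0 < w) (i : Fin k) (x : Fin w) :
    pr (fun U : Fin k → Fin w => U i = x) = 1 / (w : ℝ) := by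
  classical
  have : NeZero w := ⟨hw.ne'⟩
  unfold pr
  rw [ex_update i]
  have h1 : (fun U : Fin k → Fin w => ex (fun y : Fin w =>
      if (Function.update U i y) i = x then (1:ℝ) else 0)) = fun _ => (1:ℝ) / w := by
    funext U
    simp only [Function.update_self]
    unfold ex
    rw [Finset.sum_ite_eq' Finset.univ x]
    simp
  have h2 : ex (fun _ : Fin k → Fin w => (1:ℝ) / w) = 1 / w := ex_const _
  rw [← h2, ← h1]
  congr! 5

theorem pr_plant_sub (hw : 0 < w) (S : Finset (Blk k w)) :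
    pr (fun U : Fin k → Fin w => ∀ a ∈ S, U a.1 = a.2) ≤ (1 / (w : ℝ)) ^ S.card := by
  classical
  have : NeZero w := ⟨hw.ne'⟩
  by_cases hinj : ∀ a ∈ S, ∀ b ∈ S, a ≠ b → a.1 ≠ b.1
  · apply pr_forall_le (Y := Fin w) S (fun a => {a.1}) (fun a U => U a.1 = a.2)
    · intro a ha b hb hab
      simpa using hinj a ha b hb hab
    · intro a _ ω ω' h
      rw [h a.1 (Finset.mem_singleton_self _)]
    · intro a _
      exact (pr_coord_eq hw a.1 a.2).le
  · push Not at hinj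
    obtain ⟨a, ha, b, hb, hab, h1⟩ := hinj
    have h0 : pr (fun U : Fin k → Fin w => ∀ a ∈ S, U a.1 = a.2) = 0 := by
      rw [← pr_false (Ω := Fin k → Fin w)]
      apply pr_congr
      intro U
      simp only [iff_false]
      intro h
      apply hab
      have e1 := h a ha
      have e2 := h b hb
      rw [h1] at e1
      exact Prod.ext h1 (e1.symm.trans e2)
    rw [h0]
    positivity

theorem kc_plant {S : Finset (Blk k w)} {U : Fin k → Fin w} (h : Kc S (plant U))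
    (hS : 2 ≤ S.card) : ∀ a ∈ S, U a.1 = a.2 := by
  intro a ha
  obtain ⟨b, hb, hba⟩ := Finset.exists_mem_ne (by omega : 1 < S.card) a
  have h1 := h a ha b hb (Ne.symm hba)
  simp only [plant, decide_eq_true_eq] at h1
  obtain ⟨c, d, _, hcd⟩ := h1
  have h2 : a ∈ s((c, U c), (d, U d)) := by
    rw [← hcd]
    exact Sym2.mem_mk_left _ _
  rcases Sym2.mem_iff.1 h2 with rfl | rfl <;> rfl

theorem kc_of_graph {S : Finset (Blk k w)} {U : Fin k → Fin w} (h : ∀ a ∈ S, U a.1 = a.2) :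
    Kc S (plant U) := by
  intro a ha b hb hab
  simp only [plant, decide_eq_true_eq]
  refine ⟨a.1, b.1, ?_, ?_⟩
  · intro h1
    apply hab
    have e1 := h a ha
    have e2 := h b hb
    rw [h1] at e1
    exact Prod.ext h1 (e1.symm.trans e2)
  · rw [h a ha, h b hb]

theorem empty_mem {𝓐 : Finset (Finset (Blk k w))} (h : Closed l m N 𝓐) {S : Finset (Blk k w)}
    (hS : S ∈ 𝓐) (h1 : S.card ≤ 1) : ∅ ∈ 𝓐 := by
  apply h.2 ∅ (by simp)
  have : pr (fun ω : Smp k w N => ¬ Acc 𝓐 (join (noise ω) (fill ∅))) = 0 := by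
    rw [← pr_false (Ω := Smp k w N)]
    apply pr_congr
    intro ω
    simp only [iff_false, not_not]
    refine ⟨S, hS, ?_⟩
    intro a ha b hb hab
    exact absurd (Finset.card_le_one.1 h1 a ha b hb) hab
  rw [this]
  positivity

theorem sum_quarter_le (l : ℕ) :
    ∑ j ∈ (Finset.range (l + 1)).filter (fun j => l < 2 * j), (1 / 4 : ℝ) ^ j ≤ (1 / 2 : ℝ) ^ l := by
  have h1 : (Finset.range (l + 1)).filter (fun j => l < 2 * j) ⊆ Finset.Ico (l / 2 + 1) (l + 1) := by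
    intro j hj
    simp only [Finset.mem_filter, Finset.mem_range] at hj
    simp only [Finset.mem_Ico]
    omega
  have h2 : ∑ j ∈ (Finset.range (l + 1)).filter (fun j => l < 2 * j), (1 / 4 : ℝ) ^ j ≤
      ∑ j ∈ Finset.Ico (l / 2 + 1) (l + 1), (1 / 4 : ℝ) ^ j :=
    Finset.sum_le_sum_of_subset_of_nonneg h1 (fun j _ _ => by positivity)
  have h3 : ∑ j ∈ Finset.Ico (l / 2 + 1) (l + 1), (1 / 4 : ℝ) ^ j ≤
      (1 / 4 : ℝ) ^ (l / 2 + 1) / (1 - 1 / 4) :=
    geom_sum_Ico_le_of_lt_one (by norm_num) (by norm_num)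
  have h4 : (1 / 4 : ℝ) ^ (l / 2 + 1) ≤ (1 / 2 : ℝ) ^ (l + 1) := by
    have : (1 / 4 : ℝ) ^ (l / 2 + 1) = (1 / 2 : ℝ) ^ (2 * (l / 2 + 1)) := by
      rw [pow_mul]
      norm_num
    rw [this]
    apply pow_le_pow_of_le_one (by norm_num) (by norm_num)
    omega
  have h5 : (0:ℝ) < (1 / 2 : ℝ) ^ l := by positivity
  have h6 : (1 / 2 : ℝ) ^ (l + 1) = (1 / 2 : ℝ) ^ l * (1 / 2) := pow_succ _ _
  rw [h6] at h4
  have h7 : (1 / 4 : ℝ) ^ (l / 2 + 1) / (1 - 1 / 4) = (1 / 4 : ℝ) ^ (l / 2 + 1) * (4 / 3) := by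
    norm_num
    ring
  rw [h7] at h3
  linarith

theorem pr_minim_le (hl : 1 ≤ l) (hN : l ^ 2 ≤ N) (hw : 4 * l * m ≤ w) (hw0 : 0 < w)
    {𝓐 : Finset (Finset (Blk k w))} (hA : Closed l m N 𝓐) :
    pr (fun U : Fin k → Fin w => ∃ j ∈ (Finset.range (l + 1)).filter (fun j => l < 2 * j),
      ∃ S ∈ minim 𝓐 j, ∀ a ∈ S, U a.1 = a.2) ≤ (1 / 2 : ℝ) ^ l := by
  refine le_trans (pr_exists_le _ _) (le_trans (Finset.sum_le_sum ?_) (sum_quarter_le l))
  intro j hj
  simp only [Finset.mem_filter, Finset.mem_range] at hj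
  refine le_trans (pr_exists_le _ _) ?_
  have h1 : ∑ S ∈ minim 𝓐 j, pr (fun U : Fin k → Fin w => ∀ a ∈ S, U a.1 = a.2) ≤
      ∑ S ∈ minim 𝓐 j, (1 / (w : ℝ)) ^ j := by
    apply Finset.sum_le_sum
    intro S hS
    rw [mem_minim] at hS
    have := pr_plant_sub hw0 S
    rwa [hS.2.1] at this
  refine le_trans h1 ?_
  rw [Finset.sum_const, nsmul_eq_mul]
  have h2 : ((minim 𝓐 j).card : ℝ) ≤ ((l * m : ℕ) : ℝ) ^ j := by
    exact_mod_cast card_minimal_le hl hN hA (by omega : j ≤ l)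
  have hw' : (0:ℝ) < w := by exact_mod_cast hw0
  have h3 : ((l * m : ℕ) : ℝ) * (1 / (w:ℝ)) ≤ 1 / 4 := by
    rw [mul_one_div, div_le_div_iff₀ hw' (by norm_num)]
    have : ((4 * l * m : ℕ) : ℝ) ≤ w := by exact_mod_cast hw
    push_cast at this ⊢
    linarith
  calc ((minim 𝓐 j).card : ℝ) * (1 / (w : ℝ)) ^ j ≤ ((l * m : ℕ) : ℝ) ^ j * (1 / (w : ℝ)) ^ j := by
        gcongr
    _ = (((l * m : ℕ) : ℝ) * (1 / (w : ℝ))) ^ j := by rw [mul_pow]
    _ ≤ (1 / 4) ^ j := by gcongr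

theorem pr_and_error (hl : 2 ≤ l) (hN : l ^ 2 ≤ N) (hw : 4 * l * m ≤ w) (hw0 : 0 < w)
    {𝓐 𝓑 : Finset (Finset (Blk k w))} (hA : Closed l m N 𝓐) (hB : Closed l m N 𝓑) :
    pr (fun U : Fin k → Fin w =>
      Acc 𝓐 (plant U) ∧ Acc 𝓑 (plant U) ∧ ¬ Acc (𝓐 ∩ 𝓑) (plant U)) ≤ 2 * (1 / 2 : ℝ) ^ l := by
  classical
  have hA1 := pr_minim_le (by omega : 1 ≤ l) hN hw hw0 hA
  have hB1 := pr_minim_le (by omega : 1 ≤ l) hN hw hw0 hB
  refine le_trans (le_trans (pr_mono (F := fun U : Fin k → Fin w =>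
    (∃ j ∈ (Finset.range (l + 1)).filter (fun j => l < 2 * j),
      ∃ S ∈ minim 𝓐 j, ∀ a ∈ S, U a.1 = a.2) ∨
    (∃ j ∈ (Finset.range (l + 1)).filter (fun j => l < 2 * j),
      ∃ S ∈ minim 𝓑 j, ∀ a ∈ S, U a.1 = a.2)) ?_) (pr_or_le _ _)) (by linarith)
  -- a minimal member with at most one element is empty
  have small : ∀ {𝓒 : Finset (Finset (Blk k w))}, Closed l m N 𝓒 → ∀ {S : Finset (Blk k w)},
      S ∈ minim 𝓒 S.card → S.card ≤ 1 → S = ∅ := by
    intro 𝓒 h𝓒 S hS h1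
    rw [mem_minim] at hS
    exact (hS.2.2 ∅ (empty_mem h𝓒 hS.1 h1) (Finset.empty_subset _)).symm
  have graph : ∀ {𝓒 : Finset (Finset (Blk k w))}, Closed l m N 𝓒 → ∀ {S : Finset (Blk k w)}
      {U : Fin k → Fin w}, S ∈ minim 𝓒 S.card → Kc S (plant U) → ∀ a ∈ S, U a.1 = a.2 := by
    intro 𝓒 h𝓒 S U hS hK a ha
    by_cases h1 : S.card ≤ 1
    · rw [small h𝓒 hS h1] at ha
      simp at ha
    · exact kc_plant hK (by omega) a ha
  rintro U ⟨⟨S0, hS0, hK0⟩, ⟨T0, hT0, hL0⟩, hno⟩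
  obtain ⟨S, hSS, hS⟩ := exists_minim hS0
  obtain ⟨T, hTT, hT⟩ := exists_minim hT0
  have hKS := hK0.subset hSS
  have hKT := hL0.subset hTT
  have gS := graph hA hS hKS
  have gT := graph hB hT hKT
  have hS' := mem_minim.1 hS
  have hT' := mem_minim.1 hT
  have cS := hA.1 S hS'.1
  have cT := hB.1 T hT'.1
  by_cases c1 : l < 2 * S.card
  · left
    exact ⟨S.card, by simp only [Finset.mem_filter, Finset.mem_range]; omega, S, hS, gS⟩
  by_cases c2 : l < 2 * T.card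
  · right
    exact ⟨T.card, by simp only [Finset.mem_filter, Finset.mem_range]; omega, T, hT, gT⟩
  exfalso
  apply hno
  have hcard : (S ∪ T).card ≤ l := by
    have := Finset.card_union_le S T
    omega
  refine ⟨S ∪ T, Finset.mem_inter.2 ⟨hA.up hS'.1 Finset.subset_union_left hcard,
    hB.up hT'.1 Finset.subset_union_right hcard⟩, kc_of_graph ?_⟩
  intro a ha
  rcases Finset.mem_union.1 ha with h | h
  · exact gS a h
  · exact gT a h

end Pool.Agent.H7N
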