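import Pool.Agent.H7N.Clo
import Pool.Agent.H7N.AndErr

/-!
JOB NEG-APX. Razborov's approximation of a monotone circuit on one block, and the dichotomy
(definitions in BDefs.lean; use `exists_closure` of Clo.lean, `pr_and_error`, `pr_not_clique`,
`kc_of_graph` of AndErr.lean/Min.lean, which are separate jobs).

* `approx`: induction on the circuit. Sources of the empty circuit: input bit e: if e is on the
  diagonal take 𝓐 = ∅ (plant U e = false; ∅ is closed because m >= 1 and Smp is nonempty); if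
  e = s(a,b), a ≠ b, take the closure of {{a,b}} (`exists_closure`; Acc {{a,b}} x ↔ x s(a,b) = true);
  the bad noise event EN is the union over all e of the closure errors (at most (k*w+1)^2 of them:
  Fintype.card (Sym2 _)). Constant true: 𝓐 = all sets of size <= l; constant false: ∅.
  AND gate: 𝓐 ∩ 𝓑 (`Closed.inter`), add the event of `pr_and_error` to EP. OR gate: closure of 𝓐 ∪ 𝓑,
  add the closure error to EN. Old sources keep their families. (The new gate is the only new source.)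
* `dichotomy`: take 𝓐 for h. If 𝓐 = ∅ then {h (plant U) = true} ⊆ EP. Otherwise some S ∈ 𝓐 and
  pr (Kc S (noise ω)) >= 1/2 (`pr_not_clique` with T = ∅; join (noise ω) (fill ∅) has the same pairs
  as noise ω off the diagonal, in fact `fill ∅` is false everywhere), so
  pr (h (noise ω) = true) >= 1/2 - pr EN >= 1/2 - 1/6.
-/

namespace Pool.Agent.H7N

open Finset Pool.Agent.H24

variable {k w N l m : ℕ}

theorem noise_nonempty (hl : 2 ≤ l) (hN : l ^ 2 ≤ N) : Nonempty (Smp k w N) := by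
  have h1 : 0 < N := by
    have : 2 ^ 2 ≤ l ^ 2 := Nat.pow_le_pow_left hl 2
    omega
  have : NeZero N := ⟨h1.ne'⟩
  exact ⟨fun _ => 0⟩

theorem closed_empty (hl : 2 ≤ l) (hN : l ^ 2 ≤ N) (hm : 1 ≤ m) :
    Closed l m N (∅ : Finset (Finset (Blk k w))) := by
  have := noise_nonempty (k := k) (w := w) hl hN
  refine ⟨fun S hS => absurd hS (Finset.notMem_empty S), fun S _ h => ?_⟩
  exfalso
  have h1 : pr (fun ω : Smp k w N =>
      ¬ Acc (∅ : Finset (Finset (Blk k w))) (join (noise ω) (fill S))) = 1 := by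
    rw [← pr_true (Ω := Smp k w N)]
    apply pr_congr
    intro ω
    simp only [iff_true]
    rintro ⟨T, hT, _⟩
    exact absurd hT (Finset.notMem_empty T)
  rw [h1] at h
  have h2 : (1 / 2 : ℝ) ^ m ≤ (1 / 2 : ℝ) ^ 1 :=
    pow_le_pow_of_le_one (by norm_num) (by norm_num) hm
  norm_num at h2
  linarith

theorem closed_small : Closed l m N (univ.filter (fun S : Finset (Blk k w) => S.card ≤ l)) := by
  refine ⟨fun S hS => (Finset.mem_filter.1 hS).2, fun S hS _ => ?_⟩
  exact Finset.mem_filter.2 ⟨Finset.mem_univ _, hS⟩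

theorem acc_small (x : Inp k w) : Acc (univ.filter (fun S : Finset (Blk k w) => S.card ≤ l)) x :=
  ⟨∅, Finset.mem_filter.2 ⟨Finset.mem_univ _, by simp⟩,
    fun a ha => absurd ha (Finset.notMem_empty a)⟩

theorem not_acc_empty (x : Inp k w) : ¬ Acc (∅ : Finset (Finset (Blk k w))) x := by
  rintro ⟨T, hT, _⟩
  exact absurd hT (Finset.notMem_empty T)

theorem plant_diag (U : Fin k → Fin w) (a : Blk k w) : plant U s(a, a) = false := by
  simp only [plant, decide_eq_false_iff_not]
  rintro ⟨c, d, hcd, h⟩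
  rcases Sym2.eq_iff.1 h with ⟨h1, h2⟩ | ⟨h1, h2⟩
  · exact hcd (congrArg Prod.fst (h1.symm.trans h2))
  · exact hcd (congrArg Prod.fst (h2.symm.trans h1))

/-- The family of an input bit. -/
theorem approx_input (hl : 2 ≤ l) (hN : l ^ 2 ≤ N) (hm : 1 ≤ m) (e : Sym2 (Blk k w)) :
    ∃ 𝓑 : Finset (Finset (Blk k w)), Closed l m N 𝓑 ∧
      (∀ U, plant U e = true → Acc 𝓑 (plant U)) ∧
      pr (fun ω : Smp k w N => Acc 𝓑 (noise ω) ∧ ¬ noise ω e = true) ≤
        ((k * w + 1 : ℕ) : ℝ) ^ l * (1 / 2 : ℝ) ^ m := by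
  classical
  induction e using Sym2.ind with
  | _ a b =>
    by_cases hab : a = b
    · subst hab
      refine ⟨∅, closed_empty hl hN hm, fun U hU => ?_, ?_⟩
      · rw [plant_diag] at hU
        exact absurd hU (by simp)
      · have : pr (fun ω : Smp k w N =>
            Acc (∅ : Finset (Finset (Blk k w))) (noise ω) ∧ ¬ noise ω s(a, a) = true) = 0 := by
          rw [← pr_false (Ω := Smp k w N)]
          apply pr_congr
          intro ω
          simp only [iff_false]
          exact fun h => not_acc_empty _ h.1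
        rw [this]
        positivity
    · obtain ⟨𝓑, h1, h2, h3⟩ := exists_closure (l := l) m N ({{a, b}} : Finset (Finset (Blk k w)))
        (fun S hS => by
          rw [Finset.mem_singleton.1 hS]
          exact Finset.card_le_two.trans hl)
      have key : ∀ x : Inp k w, Acc ({{a, b}} : Finset (Finset (Blk k w))) x ↔
          x s(a, b) = true := by
        intro x
        constructor
        · rintro ⟨S, hS, hK⟩
          rw [Finset.mem_singleton.1 hS] at hK
          exact hK a (by simp) b (by simp) hab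
        · intro hx
          refine ⟨{a, b}, Finset.mem_singleton_self _, ?_⟩
          intro c hc d hd hcd
          simp only [Finset.mem_insert, Finset.mem_singleton] at hc hd
          rcases hc with rfl | rfl <;> rcases hd with rfl | rfl
          · exact absurd rfl hcd
          · exact hx
          · rw [Sym2.eq_swap]
            exact hx
          · exact absurd rfl hcd
      refine ⟨𝓑, h1, fun U hU => ((key _).2 hU).sub h2, ?_⟩
      refine le_trans (pr_mono ?_) h3
      rintro ω ⟨h4, h5⟩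
      exact ⟨h4, fun h6 => h5 ((key _).1 h6)⟩

theorem approx (hl : 2 ≤ l) (hN : l ^ 2 ≤ N) (hm : 1 ≤ m) (hw : 4 * l * m ≤ w) (hw0 : 0 < w)
    {t r : ℕ} {L : List (Inp k w → Bool)} (hL : Circuit t r L) (hr : r = 0) :
    ∃ (EP : (Fin k → Fin w) → Prop) (EN : Smp k w N → Prop),
      pr EP ≤ t * (2 * (1 / 2 : ℝ) ^ l) ∧
      pr EN ≤ (t + ((k * w + 1 : ℕ) : ℝ) ^ 2) * (((k * w + 1 : ℕ) : ℝ) ^ l * (1 / 2 : ℝ) ^ m) ∧
      ∀ u, Source L u → ∃ 𝓐 : Finset (Finset (Blk k w)), Closed l m N 𝓐 ∧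
        (∀ U, ¬ EP U → u (plant U) = true → Acc 𝓐 (plant U)) ∧
        (∀ ω, ¬ EN ω → Acc 𝓐 (noise ω) → u (noise ω) = true) := by
  classical
  have hX : (0 : ℝ) ≤ ((k * w + 1 : ℕ) : ℝ) ^ l * (1 / 2 : ℝ) ^ m := by positivity
  have hY : (0 : ℝ) ≤ 2 * (1 / 2 : ℝ) ^ l := by positivity
  induction hL with
  | nil =>
    choose 𝓑 h1 h2 h3 using fun e : Sym2 (Blk k w) => approx_input (l := l) (N := N) hl hN hm e
    refine ⟨fun _ => False, fun ω => ∃ e ∈ (univ : Finset (Sym2 (Blk k w))),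
      Acc (𝓑 e) (noise ω) ∧ ¬ noise ω e = true, ?_, ?_, ?_⟩
    · rw [pr_false]
      simp
    · refine le_trans (pr_exists_le univ (fun (e : Sym2 (Blk k w)) (ω : Smp k w N) =>
        Acc (𝓑 e) (noise ω) ∧ ¬ noise ω e = true)) ?_
      refine le_trans (Finset.sum_le_card_nsmul univ _ _ (fun e _ => h3 e)) ?_
      rw [nsmul_eq_mul, Nat.cast_zero, zero_add]
      refine mul_le_mul_of_nonneg_right ?_ hX
      have hc : (univ : Finset (Sym2 (Blk k w))).card ≤ (k * w + 1) ^ 2 := by
        rw [Finset.card_univ, Sym2.card, Fintype.card_prod, Fintype.card_fin, Fintype.card_fin]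
        exact Nat.choose_le_pow _ _
      exact_mod_cast hc
    · rintro u (⟨i, rfl⟩ | ⟨c, rfl⟩ | hu)
      · refine ⟨𝓑 i, h1 i, fun U _ hU => h2 i U hU, fun ω hω hA => ?_⟩
        by_contra hcon
        exact hω ⟨i, Finset.mem_univ _, hA, hcon⟩
      · cases c
        · exact ⟨∅, closed_empty hl hN hm, fun U _ hU => absurd hU (by simp),
            fun ω _ hA => absurd hA (not_acc_empty _)⟩
        · exact ⟨_, closed_small, fun U _ _ => acc_small _, fun _ _ _ => rfl⟩
      · exact absurd hu (by simp)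
  | @and t r L u v hC hu hv ih =>
    obtain ⟨EP, EN, hEP, hEN, hS⟩ := ih hr
    obtain ⟨𝓐, hA, hAP, hAN⟩ := hS u hu
    obtain ⟨𝓑, hB, hBP, hBN⟩ := hS v hv
    refine ⟨fun U => EP U ∨ (Acc 𝓐 (plant U) ∧ Acc 𝓑 (plant U) ∧ ¬ Acc (𝓐 ∩ 𝓑) (plant U)), EN,
      ?_, ?_, ?_⟩
    · refine (pr_or_le _ _).trans ?_
      have := pr_and_error hl hN hw hw0 hA hB
      push_cast
      linarith
    · refine hEN.trans ?_
      refine mul_le_mul_of_nonneg_right ?_ hX
      push_cast
      linarith
    · rintro f (⟨i, rfl⟩ | ⟨c, rfl⟩ | hf)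
      · obtain ⟨𝓒, h1, h2, h3⟩ := hS _ (Or.inl ⟨i, rfl⟩)
        exact ⟨𝓒, h1, fun U hU => h2 U (fun h => hU (Or.inl h)), h3⟩
      · obtain ⟨𝓒, h1, h2, h3⟩ := hS _ (Or.inr (Or.inl ⟨c, rfl⟩))
        exact ⟨𝓒, h1, fun U hU => h2 U (fun h => hU (Or.inl h)), h3⟩
      · rcases List.mem_cons.1 hf with rfl | hf
        · refine ⟨𝓐 ∩ 𝓑, hA.inter hB, fun U hU h => ?_, fun ω hω h => ?_⟩
          · rw [Bool.and_eq_true] at h
            have a1 := hAP U (fun h' => hU (Or.inl h')) h.1
            have a2 := hBP U (fun h' => hU (Or.inl h')) h.2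
            by_contra hcon
            exact hU (Or.inr ⟨a1, a2, hcon⟩)
          · rw [Bool.and_eq_true]
            exact ⟨hAN ω hω (h.sub Finset.inter_subset_left),
              hBN ω hω (h.sub Finset.inter_subset_right)⟩
        · obtain ⟨𝓒, h1, h2, h3⟩ := hS _ (Or.inr (Or.inr hf))
          exact ⟨𝓒, h1, fun U hU => h2 U (fun h => hU (Or.inl h)), h3⟩
  | @or t r L u v hC hu hv ih =>
    obtain ⟨EP, EN, hEP, hEN, hS⟩ := ih hr
    obtain ⟨𝓐, hA, hAP, hAN⟩ := hS u hu
    obtain ⟨𝓑, hB, hBP, hBN⟩ := hS v hv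
    obtain ⟨𝓒, hC1, hC2, hC3⟩ := exists_closure (l := l) m N (𝓐 ∪ 𝓑) (fun S h => by
      rcases Finset.mem_union.1 h with h | h
      · exact hA.1 S h
      · exact hB.1 S h)
    refine ⟨EP, fun ω => EN ω ∨ (Acc 𝓒 (noise ω) ∧ ¬ Acc (𝓐 ∪ 𝓑) (noise ω)), ?_, ?_, ?_⟩
    · refine hEP.trans ?_
      refine mul_le_mul_of_nonneg_right ?_ hY
      push_cast
      linarith
    · refine (pr_or_le _ _).trans ?_
      push_cast at hC3 hEN ⊢
      linarith
    · rintro f (⟨i, rfl⟩ | ⟨c, rfl⟩ | hf)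
      · obtain ⟨𝓓, h1, h2, h3⟩ := hS _ (Or.inl ⟨i, rfl⟩)
        exact ⟨𝓓, h1, h2, fun ω hω => h3 ω (fun h => hω (Or.inl h))⟩
      · obtain ⟨𝓓, h1, h2, h3⟩ := hS _ (Or.inr (Or.inl ⟨c, rfl⟩))
        exact ⟨𝓓, h1, h2, fun ω hω => h3 ω (fun h => hω (Or.inl h))⟩
      · rcases List.mem_cons.1 hf with rfl | hf
        · refine ⟨𝓒, hC1, fun U hU h => ?_, fun ω hω h => ?_⟩
          · rw [Bool.or_eq_true] at h
            rcases h with h | h
            · exact ((hAP U hU h).sub Finset.subset_union_left).sub hC2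
            · exact ((hBP U hU h).sub Finset.subset_union_right).sub hC2
          · rw [Bool.or_eq_true]
            have hAB : Acc (𝓐 ∪ 𝓑) (noise ω) := by
              by_contra hcon
              exact hω (Or.inr ⟨h, hcon⟩)
            obtain ⟨S, hS1, hS2⟩ := hAB
            rcases Finset.mem_union.1 hS1 with hS1 | hS1
            · exact Or.inl (hAN ω (fun h' => hω (Or.inl h')) ⟨S, hS1, hS2⟩)
            · exact Or.inr (hBN ω (fun h' => hω (Or.inl h')) ⟨S, hS1, hS2⟩)
        · obtain ⟨𝓓, h1, h2, h3⟩ := hS _ (Or.inr (Or.inr hf))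
          exact ⟨𝓓, h1, h2, fun ω hω => h3 ω (fun h => hω (Or.inl h))⟩
  | not hC hu ih => exact absurd hr (Nat.succ_ne_zero _)

theorem dichotomy (hl : 2 ≤ l) (hN : l ^ 2 ≤ N) (hw : 4 * l * m ≤ w) (hw0 : 0 < w)
    {t : ℕ} (hm : 6 * (t + (k * w + 1) ^ 2) * (k * w + 1) ^ l ≤ 2 ^ m)
    {L : List (Inp k w → Bool)} {h : Inp k w → Bool} (hL : Circuit t 0 L) (hh : Source L h) :
    pr (fun U : Fin k → Fin w => h (plant U) = true) ≤ t * (2 * (1 / 2 : ℝ) ^ l) ∨
    1 / 3 ≤ pr (fun ω : Smp k w N => h (noise ω) = true) := by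
  classical
  have hm1 : 1 ≤ m := by
    by_contra hcon
    have hm0 : m = 0 := by omega
    rw [hm0, pow_zero] at hm
    have h1 : 1 ≤ (k * w + 1) ^ 2 := Nat.one_le_pow _ _ (by omega)
    have h2 : 1 ≤ (k * w + 1) ^ l := Nat.one_le_pow _ _ (by omega)
    have h3 : 6 * 1 * 1 ≤ 6 * (t + (k * w + 1) ^ 2) * (k * w + 1) ^ l :=
      Nat.mul_le_mul (Nat.mul_le_mul_left 6 (by omega)) h2
    omega
  have hne := noise_nonempty (k := k) (w := w) hl hN
  obtain ⟨EP, EN, hEP, hEN, hS⟩ := approx (k := k) (w := w) hl hN hm1 hw hw0 hL rfl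
  obtain ⟨𝓐, hA, hAP, hAN⟩ := hS h hh
  rcases Finset.eq_empty_or_nonempty 𝓐 with rfl | ⟨S, hSA⟩
  · left
    refine le_trans (pr_mono (fun U hU => ?_)) hEP
    by_contra hcon
    exact not_acc_empty _ (hAP U hcon hU)
  · right
    have h1 : pr (fun ω : Smp k w N => ¬ Kc S (noise ω)) ≤ 1 / 2 := by
      have h0 := pr_not_clique (k := k) (w := w) (by omega : 1 ≤ l) hN (hA.1 S hSA) ∅
      refine le_trans (pr_mono ?_) h0
      intro ω hω hK
      apply hω
      refine hK.mono (fun e he => ?_)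
      simp only [join, Bool.or_eq_true] at he
      rcases he with he | he
      · exact he
      · exfalso
        induction e using Sym2.ind with
        | _ a b =>
          simp only [fill, decide_eq_true_eq] at he
          exact absurd (he a (Sym2.mem_mk_left a b)) (Finset.notMem_empty a)
    have h2 : pr EN ≤ 1 / 6 := by
      refine hEN.trans ?_
      have h3 : (6 * (t + ((k * w + 1 : ℕ) : ℝ) ^ 2) * ((k * w + 1 : ℕ) : ℝ) ^ l : ℝ) ≤ 2 ^ m := by
        exact_mod_cast hm
      have h4 : (0 : ℝ) < (1 / 2 : ℝ) ^ m := by positivity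
      have h5 : (2 : ℝ) ^ m * (1 / 2 : ℝ) ^ m = 1 := by
        rw [← mul_pow]
        norm_num
      have h6 := mul_le_mul_of_nonneg_right h3 h4.le
      rw [h5] at h6
      linarith
    have h3 : (1 : ℝ) ≤ pr (fun ω : Smp k w N => h (noise ω) = true) +
        (pr (fun ω : Smp k w N => ¬ Kc S (noise ω)) + pr EN) := by
      have e1 : (1 : ℝ) = pr (fun _ : Smp k w N => True) := pr_true.symm
      have e2 : pr (fun _ : Smp k w N => True) ≤
          pr (fun ω : Smp k w N => h (noise ω) = true ∨ (¬ Kc S (noise ω) ∨ EN ω)) := by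
        apply pr_mono
        intro ω _
        by_cases c1 : EN ω
        · exact Or.inr (Or.inr c1)
        · by_cases c2 : Kc S (noise ω)
          · exact Or.inl (hAN ω c1 ⟨S, hSA, c2⟩)
          · exact Or.inr (Or.inl c2)
      have e3 := pr_or_le (fun ω : Smp k w N => h (noise ω) = true)
        (fun ω : Smp k w N => ¬ Kc S (noise ω) ∨ EN ω)
      have e4 := pr_or_le (fun ω : Smp k w N => ¬ Kc S (noise ω)) EN
      linarith
    linarith

end Pool.Agent.H7N
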