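import Pool.Agent.H24.Prob

/-!
Uniform probability on product spaces: averaging over one coordinate, independence of events
depending on disjoint sets of coordinates.
-/

namespace Pool.Agent.H7N

open Finset Pool.Agent.H24

/-- Transport of an average along a bijection. -/
theorem ex_equiv {Ω Ψ : Type*} [Fintype Ω] [Fintype Ψ] (e : Ω ≃ Ψ) (f : Ψ → ℝ) :
    ex (fun ω => f (e ω)) = ex f := by
  unfold ex
  rw [Equiv.sum_comp e f, Fintype.card_congr e]

theorem pr_equiv {Ω Ψ : Type*} [Fintype Ω] [Fintype Ψ] (e : Ω ≃ Ψ) (E : Ψ → Prop) :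
    pr (fun ω => E (e ω)) = pr E := by
  classical
  unfold pr
  exact ex_equiv e (fun ψ => if E ψ then (1:ℝ) else 0)

/-- Iterated averages. -/
theorem ex_prod {Ω Ψ : Type*} [Fintype Ω] [Fintype Ψ] (f : Ω → Ψ → ℝ) :
    ex (fun p : Ω × Ψ => f p.1 p.2) = ex (fun ω => ex (fun ψ => f ω ψ)) := by
  unfold ex
  rw [Fintype.sum_prod_type, Fintype.card_prod, Nat.cast_mul, ← Finset.sum_div, div_div,
    mul_comm (Fintype.card Ω : ℝ)]

/-- The average over `ι → X` may be computed by resampling one coordinate. -/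
theorem ex_update {ι X : Type*} [Fintype ι] [DecidableEq ι] [Fintype X] [Nonempty X]
    (i : ι) (f : (ι → X) → ℝ) :
    ex f = ex (fun ω => ex (fun x => f (Function.update ω i x))) := by
  classical
  rw [← ex_prod (fun ω x => f (Function.update ω i x))]
  -- the involution (ω, x) ↦ (update ω i x, ω i)
  let e : (ι → X) × X ≃ (ι → X) × X :=
    { toFun := fun p => (Function.update p.1 i p.2, p.1 i)
      invFun := fun p => (Function.update p.1 i p.2, p.1 i)
      left_inv := fun p => by simp
      right_inv := fun p => by simp }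
  have h1 : ex (fun p : (ι → X) × X => f (Function.update p.1 i p.2)) =
      ex (fun p : (ι → X) × X => f p.1) := by
    exact ex_equiv e (fun p : (ι → X) × X => f p.1)
  rw [h1]
  rw [ex_prod (fun ω _ => f ω)]
  congr 1
  ext ω
  rw [ex_const]

/-- Independence of two events depending on complementary sets of coordinates. -/
theorem pr_indep {J Y : Type*} [Fintype J] [DecidableEq J] [Fintype Y] [Nonempty Y]
    (D : Finset J) (E F : (J → Y) → Prop)
    (hE : ∀ ω ω', (∀ j ∈ D, ω j = ω' j) → (E ω ↔ E ω'))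
    (hF : ∀ ω ω', (∀ j, j ∉ D → ω j = ω' j) → (F ω ↔ F ω')) :
    pr (fun ω => E ω ∧ F ω) = pr E * pr F := by
  classical
  let mix : (J → Y) → (J → Y) → (J → Y) := fun ω η j => if j ∈ D then ω j else η j
  have hmm : ∀ ω η, mix (mix ω η) (mix η ω) = ω := by
    intro ω η
    funext j
    by_cases hj : j ∈ D <;> simp [mix, hj]
  let e : (J → Y) × (J → Y) ≃ (J → Y) × (J → Y) :=
    { toFun := fun p => (mix p.1 p.2, mix p.2 p.1)
      invFun := fun p => (mix p.1 p.2, mix p.2 p.1)
      left_inv := fun p => by simp [hmm]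
      right_inv := fun p => by simp [hmm] }
  have hprod : pr E * pr F = ex (fun p : (J → Y) × (J → Y) =>
      (if E p.1 then (1:ℝ) else 0) * (if F p.2 then (1:ℝ) else 0)) := by
    rw [ex_prod (fun ω η => (if E ω then (1:ℝ) else 0) * (if F η then (1:ℝ) else 0))]
    have : (fun ω => ex (fun η => (if E ω then (1:ℝ) else 0) * (if F η then (1:ℝ) else 0))) =
        fun ω => (pr F) * (if E ω then (1:ℝ) else 0) := by
      funext ω
      rw [ex_const_mul]
      unfold pr
      ring
    rw [this, ex_const_mul, mul_comm]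
    rfl
  rw [hprod, ← ex_equiv e]
  have h2 : ∀ p : (J → Y) × (J → Y), (if E (e p).1 then (1:ℝ) else 0) *
      (if F (e p).2 then (1:ℝ) else 0) = if (E p.1 ∧ F p.1) then 1 else 0 := by
    rintro ⟨ω, η⟩
    have a1 : E (mix ω η) ↔ E ω := hE _ _ (fun j hj => by simp [mix, hj])
    have a2 : F (mix η ω) ↔ F ω := hF _ _ (fun j hj => by simp [mix, hj])
    simp only [e, Equiv.coe_fn_mk]
    by_cases hEω : E ω <;> by_cases hFω : F ω <;> simp [a1, a2, hEω, hFω]
  simp only [h2]
  rw [ex_prod (fun ω _ => if (E ω ∧ F ω) then (1:ℝ) else 0)]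
  unfold pr
  congr 1
  ext ω
  rw [ex_const]
  by_cases hEω : E ω <;> by_cases hFω : F ω <;> simp [hEω, hFω]

/-- Events depending on pairwise disjoint sets of coordinates, each of probability at most `c`:
all of them hold with probability at most `c ^ m`. -/
theorem pr_forall_le {J Y ι : Type*} [Fintype J] [DecidableEq J] [Fintype Y] [Nonempty Y]
    (s : Finset ι) (D : ι → Finset J) (A : ι → (J → Y) → Prop) (c : ℝ)
    (hD : ∀ a ∈ s, ∀ b ∈ s, a ≠ b → Disjoint (D a) (D b))
    (hA : ∀ a ∈ s, ∀ ω ω', (∀ j ∈ D a, ω j = ω' j) → (A a ω ↔ A a ω'))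
    (hc : ∀ a ∈ s, pr (A a) ≤ c) :
    pr (fun ω => ∀ a ∈ s, A a ω) ≤ c ^ s.card := by
  classical
  induction s using Finset.induction_on with
  | empty => simpa using pr_le_one _
  | insert a s ha ih =>
    have h1 : pr (fun ω => ∀ b ∈ insert a s, A b ω) = pr (fun ω => A a ω ∧ ∀ b ∈ s, A b ω) :=
      pr_congr (fun ω => by simp)
    rw [h1, pr_indep (D a) (A a) (fun ω => ∀ b ∈ s, A b ω)
      (hA a (Finset.mem_insert_self _ _)) ?_]
    · rw [Finset.card_insert_of_notMem ha, pow_succ, mul_comm]
      have h2 := ih (fun b hb b' hb' => hD b (Finset.mem_insert_of_mem hb) b'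
        (Finset.mem_insert_of_mem hb')) (fun b hb => hA b (Finset.mem_insert_of_mem hb))
        (fun b hb => hc b (Finset.mem_insert_of_mem hb))
      have h3 := hc a (Finset.mem_insert_self _ _)
      have h4 : 0 ≤ pr (fun ω : J → Y => ∀ b ∈ s, A b ω) := pr_nonneg _
      have h5 : 0 ≤ pr (A a) := pr_nonneg _
      exact mul_le_mul h2 h3 h5 (le_trans h4 h2)
    · intro ω ω' hω
      refine forall_congr' (fun b => forall_congr' (fun hb => ?_))
      apply hA b (Finset.mem_insert_of_mem hb)
      intro j hj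
      apply hω
      intro hja
      exact (Finset.disjoint_left.1 (hD a (Finset.mem_insert_self _ _) b
        (Finset.mem_insert_of_mem hb) (fun h => ha (h ▸ hb)))) hja hj

/-- One coordinate vanishes with probability `1 / N`. -/
theorem pr_coord {J : Type*} [Fintype J] [DecidableEq J] {N : ℕ} (hN : 0 < N) (j : J) :
    pr (fun ω : J → Fin N => (ω j).val = 0) = 1 / N := by
  classical
  have : NeZero N := ⟨hN.ne'⟩
  unfold pr
  rw [ex_update j]
  have h1 : (fun ω : J → Fin N => ex (fun x : Fin N =>
      if ((Function.update ω j x) j).val = 0 then (1:ℝ) else 0)) = fun _ => (1:ℝ) / N := by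
    funext ω
    simp only [Function.update_self]
    unfold ex
    have : ∑ x : Fin N, (if x.val = 0 then (1:ℝ) else 0) = 1 := by
      rw [Finset.sum_eq_single (0 : Fin N)]
      · simp
      · intro b _ hb
        have : b.val ≠ 0 := fun h => hb (Fin.ext (by simpa using h))
        simp [this]
      · intro h
        exact absurd (Finset.mem_univ _) h
    rw [this]
    simp
  have h2 : ex (fun _ : J → Fin N => (1:ℝ) / N) = 1 / N := ex_const _
  rw [← h2, ← h1]
  congr! 5

/-- All coordinates in `T` are nonzero with probability `(1 - 1/N) ^ |T|`. -/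
theorem pr_coords_le {J : Type*} [Fintype J] [DecidableEq J] {N : ℕ} (hN : 0 < N)
    (T : Finset J) :
    pr (fun ω : J → Fin N => ∀ j ∈ T, (ω j).val ≠ 0) ≤ (1 - 1 / (N:ℝ)) ^ T.card := by
  classical
  have : NeZero N := ⟨hN.ne'⟩
  apply pr_forall_le (Y := Fin N) T (fun j => {j}) (fun j ω => (ω j).val ≠ 0)
  · intro a _ b _ hab
    simpa using hab
  · intro a _ ω ω' h
    rw [h a (Finset.mem_singleton_self a)]
  · intro a _
    rw [pr_compl (fun ω : J → Fin N => (ω a).val = 0), pr_coord hN]

end Pool.Agent.H7N
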