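import Pool.Agent.H7N.Defs
import Pool.Agent.H7N.Prob

/-!
One block: the complete graph on `Fin k × Fin w`, noise graphs, planted cliques, closed families.
-/

namespace Pool.Agent.H7N

open Finset Pool.Agent.H24

/-- vertices of a block: `k` rows of `w` vertices -/
abbrev Blk (k w : ℕ) := Fin k × Fin w

/-- inputs on a block (the bits at the diagonal are dummies) -/
abbrev Inp (k w : ℕ) := Sym2 (Blk k w) → Bool

/-- sample space of the noise: an edge is absent with probability `1 / N` -/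
abbrev Smp (k w N : ℕ) := Sym2 (Blk k w) → Fin N

/-- union of two inputs -/
def join {I : Type} (x y : I → Bool) : I → Bool := fun e => x e || y e

def noise {k w N : ℕ} (ω : Smp k w N) : Inp k w := fun e => decide ((ω e).val ≠ 0)

open Classical in
/-- the planted clique with one vertex `(a, U a)` in every row `a` -/
noncomputable def plant {k w : ℕ} (U : Fin k → Fin w) : Inp k w :=
  fun e => decide (∃ a b, a ≠ b ∧ e = s((a, U a), (b, U b)))

open Classical in
/-- the complete graph on `S` (with loops) -/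
noncomputable def fill {k w : ℕ} (S : Finset (Blk k w)) : Inp k w :=
  fun e => decide (∀ a ∈ e, a ∈ S)

/-- `S` is a clique of `x` -/
def Kc {k w : ℕ} (S : Finset (Blk k w)) (x : Inp k w) : Prop :=
  ∀ a ∈ S, ∀ b ∈ S, a ≠ b → x s(a, b) = true

/-- some member of `𝓐` is a clique of `x` -/
def Acc {k w : ℕ} (𝓐 : Finset (Finset (Blk k w))) (x : Inp k w) : Prop := ∃ S ∈ 𝓐, Kc S x

/-- closed families of sets of at most `l` vertices -/
def Closed {k w : ℕ} (l m N : ℕ) (𝓐 : Finset (Finset (Blk k w))) : Prop :=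
  (∀ S ∈ 𝓐, S.card ≤ l) ∧ ∀ S : Finset (Blk k w), S.card ≤ l →
    pr (fun ω : Smp k w N => ¬ Acc 𝓐 (join (noise ω) (fill S))) ≤ (1 / 2 : ℝ) ^ m → S ∈ 𝓐

variable {k w N l m : ℕ}

theorem Kc.mono {S : Finset (Blk k w)} {x y : Inp k w} (h : ∀ e, x e = true → y e = true)
    (hx : Kc S x) : Kc S y := fun a ha b hb hab => h _ (hx a ha b hb hab)

theorem Acc.mono {𝓐 : Finset (Finset (Blk k w))} {x y : Inp k w}
    (h : ∀ e, x e = true → y e = true) (hx : Acc 𝓐 x) : Acc 𝓐 y := by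
  obtain ⟨S, hS, hK⟩ := hx
  exact ⟨S, hS, hK.mono h⟩

theorem Kc.subset {S T : Finset (Blk k w)} {x : Inp k w} (h : S ⊆ T) (hT : Kc T x) : Kc S x :=
  fun a ha b hb hab => hT a (h ha) b (h hb) hab

theorem kc_fill (S : Finset (Blk k w)) : Kc S (fill S) := by
  intro a ha b hb _
  simp only [fill, decide_eq_true_eq]
  intro c hc
  rcases Sym2.mem_iff.1 hc with rfl | rfl <;> assumption

theorem kc_join_fill (S : Finset (Blk k w)) (x : Inp k w) : Kc S (join x (fill S)) :=
  (kc_fill S).mono (fun e he => by simp [join, he])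

/-- closed families are upward closed below size `l` -/
theorem Closed.up {𝓐 : Finset (Finset (Blk k w))} (h : Closed l m N 𝓐)
    {S T : Finset (Blk k w)} (hS : S ∈ 𝓐) (hST : S ⊆ T) (hT : T.card ≤ l) : T ∈ 𝓐 := by
  apply h.2 T hT
  have : pr (fun ω : Smp k w N => ¬ Acc 𝓐 (join (noise ω) (fill T))) = 0 := by
    rw [← pr_false (Ω := Smp k w N)]
    apply pr_congr
    intro ω
    simp only [iff_false, not_not]
    exact ⟨S, hS, (kc_join_fill T _).subset hST⟩
  rw [this]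
  positivity

theorem Acc.sub {𝓐 𝓑 : Finset (Finset (Blk k w))} (h : 𝓐 ⊆ 𝓑) {x : Inp k w} (hx : Acc 𝓐 x) :
    Acc 𝓑 x := by
  obtain ⟨T, hT, hK⟩ := hx
  exact ⟨T, h hT, hK⟩

theorem Closed.inter {𝓐 𝓑 : Finset (Finset (Blk k w))} (hA : Closed l m N 𝓐)
    (hB : Closed l m N 𝓑) : Closed l m N (𝓐 ∩ 𝓑) := by
  have key : ∀ (𝓒 : Finset (Finset (Blk k w))), 𝓐 ∩ 𝓑 ⊆ 𝓒 → ∀ S : Finset (Blk k w),
      pr (fun ω : Smp k w N => ¬ Acc 𝓒 (join (noise ω) (fill S))) ≤
      pr (fun ω : Smp k w N => ¬ Acc (𝓐 ∩ 𝓑) (join (noise ω) (fill S))) := by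
    intro 𝓒 h𝓒 S
    apply pr_mono
    intro ω h h'
    exact h (h'.sub h𝓒)
  refine ⟨fun S hS => hA.1 S (Finset.mem_inter.1 hS).1, fun S hS hpr => ?_⟩
  rw [Finset.mem_inter]
  exact ⟨hA.2 S hS ((key 𝓐 Finset.inter_subset_left S).trans hpr),
    hB.2 S hS ((key 𝓑 Finset.inter_subset_right S).trans hpr)⟩

end Pool.Agent.H7N
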