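import Pool.Agent.H7N.BDefs

/-!
The chain of blocks.

Write P i = pre push G ω i. For fixed i call ω light if pr_U (h (join (P i) (push i (plant U)))) <= δ
and heavy otherwise; then 1/3 <= pr_s (h (join (P i) (push i (G s)))). Both are properties of P i, and
P i does not depend on ω i (`Function.update ω i s` has the same P i), while
P (i+1) = join (P i) (push i (G (ω i))) pointwise (as an equality of functions, by `funext`).
* pr (over (ω, U)) of {h (P i) = false ∧ h (join (P i) (push i (plant U))) = true}
  <= δ + pr_ω (h (P i) = false ∧ ω heavy)                              (`ex_prod`)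
* pr_ω (h (P i) = false ∧ ω heavy ) <= 3 * pr_ω (h (P i) = false ∧ h (P (i+1)) = true)
  (`ex_update i`: average over s of the indicator at update ω i s).
* sum_i pr_ω (h (P i) = false ∧ h (P (i+1)) = true) <= 1: for each ω at most one i has this property
  (h and P are monotone: after the first i with h (P (i+1)) = true all later h (P j) are true), so the
  sum of the indicators is <= 1 pointwise; `ex_sum`, `ex_mono`, `ex_const`.
-/

namespace Pool.Agent.H7N

open Finset Pool.Agent.H24

variable {I J X 𝒰 : Type} {Λ : ℕ}

open Classical in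
/-- the union of the noise in the blocks `j < i` -/
noncomputable def pre (push : Fin Λ → (J → Bool) → (I → Bool)) (G : X → (J → Bool))
    (ω : Fin Λ → X) (i : ℕ) : I → Bool :=
  fun e => decide (∃ j : Fin Λ, j.val < i ∧ push j (G (ω j)) e = true)

theorem pre_succ (push : Fin Λ → (J → Bool) → (I → Bool)) (G : X → (J → Bool))
    (ω : Fin Λ → X) (i : Fin Λ) :
    pre push G ω (i.val + 1) = join (pre push G ω i.val) (push i (G (ω i))) := by
  classical
  funext e
  rw [Bool.eq_iff_iff]
  simp only [pre, join, decide_eq_true_eq, Bool.or_eq_true]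
  constructor
  · rintro ⟨j, hj, h⟩
    rcases Nat.lt_succ_iff_lt_or_eq.1 hj with hj | hj
    · exact Or.inl ⟨j, hj, h⟩
    · have : j = i := Fin.ext hj
      rw [← this]
      exact Or.inr h
  · rintro (⟨j, hj, h⟩ | h)
    · exact ⟨j, by omega, h⟩
    · exact ⟨i, by omega, h⟩

theorem pre_update [DecidableEq (Fin Λ)] (push : Fin Λ → (J → Bool) → (I → Bool))
    (G : X → (J → Bool)) (ω : Fin Λ → X) (i : Fin Λ) (s : X) :
    pre push G (Function.update ω i s) i.val = pre push G ω i.val := by
  classical
  funext e
  rw [Bool.eq_iff_iff]
  simp only [pre, decide_eq_true_eq]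
  constructor
  · rintro ⟨j, hj, h⟩
    have hne : j ≠ i := fun h' => by rw [h'] at hj; exact lt_irrefl _ hj
    rw [Function.update_of_ne hne] at h
    exact ⟨j, hj, h⟩
  · rintro ⟨j, hj, h⟩
    have hne : j ≠ i := fun h' => by rw [h'] at hj; exact lt_irrefl _ hj
    refine ⟨j, hj, ?_⟩
    rw [Function.update_of_ne hne]
    exact h

theorem pre_mono (push : Fin Λ → (J → Bool) → (I → Bool)) (G : X → (J → Bool))
    (ω : Fin Λ → X) {a b : ℕ} (hab : a ≤ b) (e : I) (h : pre push G ω a e = true) :
    pre push G ω b e = true := by
  classical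
  simp only [pre, decide_eq_true_eq] at h ⊢
  obtain ⟨j, hj, h⟩ := h
  exact ⟨j, lt_of_lt_of_le hj hab, h⟩

/-- at most one step of the chain goes from `false` to `true` -/
theorem chain_once [Fintype X] [Nonempty X]
    (push : Fin Λ → (J → Bool) → (I → Bool)) (G : X → (J → Bool)) (h : (I → Bool) → Bool)
    (hmono : ∀ x y : I → Bool, (∀ e, x e = true → y e = true) → h x = true → h y = true) :
    ∑ i : Fin Λ, pr (fun ω : Fin Λ → X => h (pre push G ω i.val) = false ∧
      h (pre push G ω (i.val + 1)) = true) ≤ 1 := by
  classical
  unfold pr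
  rw [← ex_sum]
  refine (ex_mono (g := fun _ => (1 : ℝ)) (fun ω => ?_)).trans (le_of_eq (ex_const _))
  beta_reduce
  have hc : (univ.filter (fun i : Fin Λ => h (pre push G ω i.val) = false ∧
      h (pre push G ω (i.val + 1)) = true)).card ≤ 1 := by
    rw [Finset.card_le_one]
    intro a ha b hb
    simp only [mem_filter, mem_univ, true_and] at ha hb
    by_contra hne
    have key : ∀ a b : Fin Λ, a.val < b.val → h (pre push G ω (a.val + 1)) = true →
        h (pre push G ω b.val) = false → False := by
      intro a b hlt h1 h2
      have h3 := hmono _ _ (fun e he => pre_mono push G ω (a := a.val + 1) (b := b.val) hlt e he) h1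
      rw [h3] at h2
      exact absurd h2 (by simp)
    rcases Nat.lt_or_gt_of_ne (fun h' => hne (Fin.ext h')) with hlt | hlt
    · exact key a b hlt ha.2 hb.1
    · exact key b a hlt hb.2 ha.1
  have hb := Finset.sum_boole (R := ℝ) (fun i : Fin Λ => h (pre push G ω i.val) = false ∧
      h (pre push G ω (i.val + 1)) = true) univ
  have hc' : ((univ.filter (fun i : Fin Λ => h (pre push G ω i.val) = false ∧
      h (pre push G ω (i.val + 1)) = true)).card : ℝ) ≤ 1 := by exact_mod_cast hc
  rw [← hb] at hc'
  refine le_trans (le_of_eq ?_) hc'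
  apply Finset.sum_congr rfl
  intro i _
  congr 1

theorem chain_bound [Fintype X] [Nonempty X] [Fintype 𝒰] [Nonempty 𝒰]
    (push : Fin Λ → (J → Bool) → (I → Bool)) (G : X → (J → Bool)) (pl : 𝒰 → (J → Bool))
    (h : (I → Bool) → Bool)
    (hmono : ∀ x y : I → Bool, (∀ e, x e = true → y e = true) → h x = true → h y = true)
    (δ : ℝ) (hδ : 0 ≤ δ)
    (hdi : ∀ (i : Fin Λ) (x : I → Bool), pr (fun U => h (join x (push i (pl U))) = true) ≤ δ ∨
      1 / 3 ≤ pr (fun s : X => h (join x (push i (G s))) = true)) :
    ∑ i : Fin Λ, pr (fun p : (Fin Λ → X) × 𝒰 => h (pre push G p.1 i) = false ∧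
      h (join (pre push G p.1 i) (push i (pl p.2))) = true) ≤ 3 + Λ * δ := by
  classical
  have step : ∀ i : Fin Λ, pr (fun p : (Fin Λ → X) × 𝒰 => h (pre push G p.1 i) = false ∧
      h (join (pre push G p.1 i) (push i (pl p.2))) = true) ≤
      3 * pr (fun ω : Fin Λ → X => h (pre push G ω i.val) = false ∧
        h (pre push G ω (i.val + 1)) = true) + δ := by
    intro i
    have e1 : pr (fun p : (Fin Λ → X) × 𝒰 => h (pre push G p.1 i) = false ∧
        h (join (pre push G p.1 i) (push i (pl p.2))) = true) =
        ex (fun ω : Fin Λ → X => pr (fun U : 𝒰 => h (pre push G ω i) = false ∧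
          h (join (pre push G ω i) (push i (pl U))) = true)) := by
      unfold pr
      rw [← ex_prod]
    have e2 : pr (fun ω : Fin Λ → X => h (pre push G ω i.val) = false ∧
        h (pre push G ω (i.val + 1)) = true) =
        ex (fun ω : Fin Λ → X => pr (fun s : X => h (pre push G ω i) = false ∧
          h (join (pre push G ω i) (push i (G s))) = true)) := by
      unfold pr
      rw [ex_update i]
      congr 1
      ext ω
      congr 1
      ext s
      beta_reduce
      rw [pre_succ, pre_update, Function.update_self]
    rw [e1, e2, ← ex_const_mul, ← ex_const (Ω := Fin Λ → X) δ, ← ex_add]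
    apply ex_mono
    intro ω
    by_cases h0 : h (pre push G ω i) = false
    · have f1 : pr (fun U : 𝒰 => h (pre push G ω i) = false ∧
          h (join (pre push G ω i) (push i (pl U))) = true) =
          pr (fun U : 𝒰 => h (join (pre push G ω i) (push i (pl U))) = true) :=
        pr_congr (fun U => by simp [h0])
      have f2 : pr (fun s : X => h (pre push G ω i) = false ∧
          h (join (pre push G ω i) (push i (G s))) = true) =
          pr (fun s : X => h (join (pre push G ω i) (push i (G s))) = true) :=
        pr_congr (fun s => by simp [h0])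
      rw [f1, f2]
      rcases hdi i (pre push G ω i) with h1 | h1
      · have := pr_nonneg (fun s : X => h (join (pre push G ω i) (push i (G s))) = true)
        linarith
      · have := pr_le_one (fun U : 𝒰 => h (join (pre push G ω i) (push i (pl U))) = true)
        linarith
    · have f1 : pr (fun U : 𝒰 => h (pre push G ω i) = false ∧
          h (join (pre push G ω i) (push i (pl U))) = true) = 0 := by
        rw [← pr_false (Ω := 𝒰)]
        exact pr_congr (fun U => by simp [h0])
      rw [f1]
      have := pr_nonneg (fun s : X => h (pre push G ω i) = false ∧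
          h (join (pre push G ω i) (push i (G s))) = true)
      linarith
  refine (Finset.sum_le_sum (fun i _ => step i)).trans ?_
  rw [Finset.sum_add_distrib, ← Finset.mul_sum, Finset.sum_const, card_univ, Fintype.card_fin,
    nsmul_eq_mul]
  have := chain_once (X := X) push G h hmono
  linarith

end Pool.Agent.H7N
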