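import Pool.Agent.H7N.BDefs

/-!
Closure of a family of sets of at most `l` vertices (definitions in BDefs.lean).

* `card_small_le`: every set with at most `l` elements is the image (of the `some` part) of a function
  `Fin l → Option (Blk k w)`, so there are at most (k*w+1)^l of them.
* `exists_closure`: induction on the number of sets S with S.card <= l that are not in 𝓐,
  proving the bound `(small \ 𝓐).card * (1/2)^m`.
  If 𝓐 is closed take 𝓑 = 𝓐. Otherwise there is S, S.card <= l, S ∉ 𝓐 with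
  pr (¬ Acc 𝓐 (join (noise ω) (fill S))) <= (1/2)^m; use the induction hypothesis for insert S 𝓐 and
  {Acc 𝓑 (noise ω) ∧ ¬ Acc 𝓐 (noise ω)} ⊆ {Acc 𝓑 (noise ω) ∧ ¬ Acc (insert S 𝓐) (noise ω)} ∪
  {Acc (insert S 𝓐) (noise ω) ∧ ¬ Acc 𝓐 (noise ω)}; on the last event Kc S (noise ω) holds, hence
  ¬ Acc 𝓐 (join (noise ω) (fill S)): if Kc T (join (noise ω) (fill S)), T ∈ 𝓐, then Kc T (noise ω),
  since a pair of T that is present only because of `fill S` is a pair of S, hence in noise ω.
-/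

namespace Pool.Agent.H7N

open Finset Pool.Agent.H24

variable {k w N l m : ℕ}

theorem card_small_le (k w l : ℕ) :
    (univ.filter (fun S : Finset (Blk k w) => S.card ≤ l)).card ≤ (k * w + 1) ^ l := by
  classical
  have hsub : univ.filter (fun S : Finset (Blk k w) => S.card ≤ l) ⊆
      (univ : Finset (Fin l → Option (Blk k w))).image
        (fun g => univ.filter (fun x => ∃ i, g i = some x)) := by
    intro S hS
    have hSl : S.card ≤ l := (mem_filter.1 hS).2
    rw [mem_image]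
    refine ⟨fun i => if h : i.val < S.card then some (S.equivFin.symm ⟨i.val, h⟩).1 else none,
      mem_univ _, ?_⟩
    ext x
    simp only [mem_filter, mem_univ, true_and]
    constructor
    · rintro ⟨i, hi⟩
      by_cases h : i.val < S.card
      · simp only [h, dif_pos, Option.some.injEq] at hi
        rw [← hi]
        exact (S.equivFin.symm ⟨i.val, h⟩).2
      · simp [h] at hi
    · intro hx
      refine ⟨⟨(S.equivFin ⟨x, hx⟩).val, lt_of_lt_of_le (S.equivFin ⟨x, hx⟩).2 hSl⟩, ?_⟩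
      have h : (S.equivFin ⟨x, hx⟩).val < S.card := (S.equivFin ⟨x, hx⟩).2
      simp only [h, dif_pos, Fin.eta, Equiv.symm_apply_apply]
  refine (card_le_card hsub).trans (card_image_le.trans ?_)
  rw [card_univ, Fintype.card_fun, Fintype.card_option, Fintype.card_prod, Fintype.card_fin,
    Fintype.card_fin, Fintype.card_fin]

theorem exists_closure_aux (m N : ℕ) (n : ℕ) : ∀ (𝓐 : Finset (Finset (Blk k w))),
    (∀ S ∈ 𝓐, S.card ≤ l) →
    (univ.filter (fun S : Finset (Blk k w) => S.card ≤ l) \ 𝓐).card = n →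
    ∃ 𝓑 : Finset (Finset (Blk k w)), Closed l m N 𝓑 ∧ 𝓐 ⊆ 𝓑 ∧
      pr (fun ω : Smp k w N => Acc 𝓑 (noise ω) ∧ ¬ Acc 𝓐 (noise ω)) ≤
        (n : ℝ) * (1 / 2 : ℝ) ^ m := by
  classical
  induction n with
  | zero =>
    intro 𝓐 h𝓐 hn
    refine ⟨𝓐, ⟨h𝓐, fun S hS _ => ?_⟩, Subset.refl _, ?_⟩
    · rw [card_eq_zero, sdiff_eq_empty_iff_subset] at hn
      exact hn (mem_filter.2 ⟨mem_univ _, hS⟩)
    · have : pr (fun ω : Smp k w N => Acc 𝓐 (noise ω) ∧ ¬ Acc 𝓐 (noise ω)) = 0 := by
        rw [← pr_false (Ω := Smp k w N)]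
        exact pr_congr (fun ω => by simp)
      rw [this]
      simp
  | succ n ih =>
    intro 𝓐 h𝓐 hn
    by_cases hcl : Closed l m N 𝓐
    · refine ⟨𝓐, hcl, Subset.refl _, ?_⟩
      have : pr (fun ω : Smp k w N => Acc 𝓐 (noise ω) ∧ ¬ Acc 𝓐 (noise ω)) = 0 := by
        rw [← pr_false (Ω := Smp k w N)]
        exact pr_congr (fun ω => by simp)
      rw [this]
      positivity
    · have hex : ∃ S : Finset (Blk k w), S.card ≤ l ∧
          pr (fun ω : Smp k w N => ¬ Acc 𝓐 (join (noise ω) (fill S))) ≤ (1 / 2 : ℝ) ^ m ∧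
          S ∉ 𝓐 := by
        by_contra hcon
        apply hcl
        refine ⟨h𝓐, fun S hS hpr => ?_⟩
        by_contra hS'
        exact hcon ⟨S, hS, hpr, hS'⟩
      obtain ⟨S, hS, hpr, hSA⟩ := hex
      have h1 : ∀ T ∈ insert S 𝓐, T.card ≤ l := by
        intro T hT
        rcases mem_insert.1 hT with rfl | hT
        · exact hS
        · exact h𝓐 T hT
      have h2 : (univ.filter (fun S : Finset (Blk k w) => S.card ≤ l) \ insert S 𝓐).card = n := by
        have h3 : univ.filter (fun S : Finset (Blk k w) => S.card ≤ l) \ insert S 𝓐 =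
            (univ.filter (fun S : Finset (Blk k w) => S.card ≤ l) \ 𝓐).erase S := by
          ext T
          simp only [mem_sdiff, mem_insert, mem_erase, not_or, ne_eq]
          tauto
        have h6 : S ∈ univ.filter (fun S : Finset (Blk k w) => S.card ≤ l) \ 𝓐 := by
          rw [mem_sdiff, mem_filter]
          exact ⟨⟨mem_univ _, hS⟩, hSA⟩
        rw [h3, card_erase_of_mem h6, hn]
        rfl
      obtain ⟨𝓑, hB, hAB, hprB⟩ := ih (insert S 𝓐) h1 h2
      refine ⟨𝓑, hB, (subset_insert S 𝓐).trans hAB, ?_⟩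
      have h4 : pr (fun ω : Smp k w N => Acc 𝓑 (noise ω) ∧ ¬ Acc 𝓐 (noise ω)) ≤
          pr (fun ω : Smp k w N => (Acc 𝓑 (noise ω) ∧ ¬ Acc (insert S 𝓐) (noise ω)) ∨
            ¬ Acc 𝓐 (join (noise ω) (fill S))) := by
        apply pr_mono
        rintro ω ⟨ha, hb⟩
        by_cases hc : Acc (insert S 𝓐) (noise ω)
        · right
          obtain ⟨T, hT, hK⟩ := hc
          rcases mem_insert.1 hT with rfl | hT
          · rintro ⟨R, hR, hKR⟩
            apply hb
            refine ⟨R, hR, ?_⟩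
            intro a haR b hbR hab
            have h5 := hKR a haR b hbR hab
            simp only [join, Bool.or_eq_true] at h5
            rcases h5 with h5 | h5
            · exact h5
            · simp only [fill, decide_eq_true_eq] at h5
              exact hK a (h5 a (Sym2.mem_mk_left a b)) b (h5 b (Sym2.mem_mk_right a b)) hab
          · exact absurd ⟨T, hT, hK⟩ hb
        · exact Or.inl ⟨ha, hc⟩
      refine h4.trans ((pr_or_le _ _).trans ?_)
      push_cast
      linarith

theorem exists_closure (m N : ℕ) (𝓐 : Finset (Finset (Blk k w))) (h𝓐 : ∀ S ∈ 𝓐, S.card ≤ l) :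
    ∃ 𝓑 : Finset (Finset (Blk k w)), Closed l m N 𝓑 ∧ 𝓐 ⊆ 𝓑 ∧
      pr (fun ω : Smp k w N => Acc 𝓑 (noise ω) ∧ ¬ Acc 𝓐 (noise ω)) ≤
        ((k * w + 1 : ℕ) : ℝ) ^ l * (1 / 2 : ℝ) ^ m := by
  classical
  obtain ⟨𝓑, h1, h2, h3⟩ := exists_closure_aux (l := l) m N _ 𝓐 h𝓐 rfl
  refine ⟨𝓑, h1, h2, h3.trans ?_⟩
  gcongr
  have h4 : (univ.filter (fun S : Finset (Blk k w) => S.card ≤ l) \ 𝓐).card ≤ (k * w + 1) ^ l :=
    (card_le_card sdiff_subset).trans (card_small_le k w l)
  exact_mod_cast h4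

end Pool.Agent.H7N
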