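import Mathlib

/-!
Definitions for the lower bound on circuits with few NOT gates for the clique function: circuits
with a counted number of NOT gates, and graphs given by their edge bits.
-/

namespace Pool.Agent.H7N

/-- `Source L u`: the function `u` of the input bits `a : I → Bool` can be read in a circuit whose
gates compute the functions in `L`: it is an input bit, a constant or the output of a gate. -/
def Source {I : Type} (L : List ((I → Bool) → Bool)) (u : (I → Bool) → Bool) : Prop :=
  (∃ i : I, u = fun a => a i) ∨ (∃ c : Bool, u = fun _ => c) ∨ u ∈ L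

/-- `Circuit t r L`: the list `L` (latest gate first) is the list of functions computed at the
gates of a circuit with `t` AND/OR gates of fan-in two and `r` NOT gates. -/
inductive Circuit {I : Type} : ℕ → ℕ → List ((I → Bool) → Bool) → Prop
  | nil : Circuit 0 0 []
  | and {t r : ℕ} {L : List ((I → Bool) → Bool)} {u v : (I → Bool) → Bool} :
      Circuit t r L → Source L u → Source L v → Circuit (t + 1) r ((fun a => u a && v a) :: L)
  | or {t r : ℕ} {L : List ((I → Bool) → Bool)} {u v : (I → Bool) → Bool} :
      Circuit t r L → Source L u → Source L v → Circuit (t + 1) r ((fun a => u a || v a) :: L)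
  | not {t r : ℕ} {L : List ((I → Bool) → Bool)} {u : (I → Bool) → Bool} :
      Circuit t r L → Source L u → Circuit t (r + 1) ((fun a => !(u a)) :: L)

/-- `Mixed f t r L`: the list `L` (latest gate first) is the list of functions computed at the
gates of a circuit with `t` AND/OR gates of fan-in two and `r` gates of arbitrary type and fan-in
`f`: such a gate computes any Boolean function `g` of `f` sources. (A NOT gate is the case
`f = 1` and `g` the negation.) -/
inductive Mixed {I : Type} (f : ℕ) : ℕ → ℕ → List ((I → Bool) → Bool) → Prop
  | nil : Mixed f 0 0 []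
  | and {t r : ℕ} {L : List ((I → Bool) → Bool)} {u v : (I → Bool) → Bool} :
      Mixed f t r L → Source L u → Source L v → Mixed f (t + 1) r ((fun a => u a && v a) :: L)
  | or {t r : ℕ} {L : List ((I → Bool) → Bool)} {u v : (I → Bool) → Bool} :
      Mixed f t r L → Source L u → Source L v → Mixed f (t + 1) r ((fun a => u a || v a) :: L)
  | any {t r : ℕ} {L : List ((I → Bool) → Bool)} (g : (Fin f → Bool) → Bool)
      {u : Fin f → (I → Bool) → Bool} :
      Mixed f t r L → (∀ i, Source L (u i)) → Mixed f t (r + 1) ((fun a => g (fun i => u i a)) :: L)

/-- The pairs of vertices of a graph on `Fin V`, which index the `V (V - 1) / 2` input bits. -/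
abbrev Edge (V : ℕ) := {p : Fin V × Fin V // p.1 < p.2}

/-- The graph on `Fin V` with the edges `e` such that `x e` is true. -/
def toGraph {V : ℕ} (x : Edge V → Bool) : SimpleGraph (Fin V) where
  Adj u v := ∃ e : Edge V, x e = true ∧ (e.1 = (u, v) ∨ e.1 = (v, u))
  symm := ⟨fun _ _ ⟨e, he, h⟩ => ⟨e, he, h.symm⟩⟩
  loopless := ⟨fun u ⟨e, _, h⟩ => by
    have h1 := e.2
    rcases h with h | h <;> rw [h] at h1 <;> exact lt_irrefl _ h1⟩

/-- The bit in row `i` and column `j` of the `V × V` matrix at the beginning of the word `x`,
where `V` is the integer part of the square root of the length of `x`. -/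
def entry (x : List Bool) (i j : ℕ) : Bool := x.getD (i * Nat.sqrt x.length + j) false

/-- The language CLIQUE. A word `x` codes the graph on `{0, …, V - 1}`, `V = ⌊√|x|⌋`, in which
`i < j` are adjacent iff the entry `(i, j)` is `true`, and the number `k` of the `false` entries on
the diagonal; `x` belongs to the language iff this graph has a clique with `k` vertices. -/
def cliqueLang : Set (List Bool) :=
  {x | ∃ S : Finset ℕ, (∀ i ∈ S, i < Nat.sqrt x.length) ∧
    S.card = ((Finset.range (Nat.sqrt x.length)).filter fun i => entry x i i = false).card ∧
    ∀ i ∈ S, ∀ j ∈ S, i < j → entry x i j = true}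

end Pool.Agent.H7N
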