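import Pool.Agent.H7N.Defs
import Pool.Agent.H7N.Prob

/-!
The union of the noise has no clique of size κ with probability at least 1/2.

For a fixed vertex set K of size κ and every pair x = (u,v), u < v in K, there must be i, e with
emb i e = some x and ω i e ≠ 0. There are κ(κ-1)/2 such pairs x, and by `hinj` they use different
coordinates (i, e), so the probability is at most (1 - 1/N)^(κ(κ-1)/2); then the union bound over K.
-/

namespace Pool.Agent.H7N

open Finset Pool.Agent.H24

/-- the pairs of elements of `K` -/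
def pairsIn {V : ℕ} (K : Finset (Fin V)) : Finset (Edge V) :=
  univ.filter (fun x : Edge V => x.1.1 ∈ K ∧ x.1.2 ∈ K)

lemma card_pairsIn {V : ℕ} (K : Finset (Fin V)) :
    K.card * (K.card - 1) / 2 ≤ (pairsIn K).card := by
  classical
  have h1 : K.offDiag.card = K.card * K.card - K.card := Finset.offDiag_card K
  have h2 : K.offDiag ⊆ ((pairsIn K).image (fun x => x.1)) ∪
      ((pairsIn K).image (fun x => (x.1.2, x.1.1))) := by
    rintro ⟨u, v⟩ huv
    rw [Finset.mem_offDiag] at huv
    obtain ⟨hu, hv, hne⟩ := huv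
    simp only at hu hv hne
    rw [Finset.mem_union]
    rcases lt_or_gt_of_ne hne with h | h
    · left
      rw [Finset.mem_image]
      exact ⟨⟨(u, v), h⟩, by simp [pairsIn, hu, hv], rfl⟩
    · right
      rw [Finset.mem_image]
      exact ⟨⟨(v, u), h⟩, by simp [pairsIn, hu, hv], rfl⟩
  have h3 : K.offDiag.card ≤ (pairsIn K).card + (pairsIn K).card :=
    (Finset.card_le_card h2).trans ((Finset.card_union_le _ _).trans
      (add_le_add Finset.card_image_le Finset.card_image_le))
  have h4 : K.card * (K.card - 1) = K.card * K.card - K.card := by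
    rw [Nat.mul_sub, mul_one]
  omega

open Classical in
theorem clique_free_prob {V κ N Λ : ℕ} {J : Type} [Fintype J] [DecidableEq J]
    (emb : Fin Λ → J → Option (Edge V))
    (hinj : ∀ i j e e' x, emb i e = some x → emb j e' = some x → i = j ∧ e = e')
    (hN : 0 < N) (h3 : (V : ℝ) ^ κ * (1 - 1 / (N : ℝ)) ^ (κ * (κ - 1) / 2) ≤ 1 / 2) :
    pr (fun ω : Fin Λ → (J → Fin N) => ¬ (toGraph (fun x : Edge V =>
      decide (∃ i e, emb i e = some x ∧ (ω i e).val ≠ 0))).CliqueFree κ) ≤ 1 / 2 := by
  have hq0 : (0 : ℝ) ≤ 1 - 1 / (N : ℝ) := by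
    have h1 : (1 : ℝ) ≤ N := by exact_mod_cast hN
    have h2 : 1 / (N : ℝ) ≤ 1 := by
      rw [div_le_one (by linarith)]
      exact h1
    linarith
  have hq1 : 1 - 1 / (N : ℝ) ≤ 1 := by
    have : (0 : ℝ) ≤ 1 / (N : ℝ) := by positivity
    linarith
  -- the event for a fixed vertex set
  set E : Finset (Fin V) → (Fin Λ → (J → Fin N)) → Prop := fun K ω =>
    ∀ x ∈ pairsIn K, ∃ i e, emb i e = some x ∧ (ω i e).val ≠ 0 with hE
  have hone : ∀ K ∈ (univ : Finset (Fin V)).powersetCard κ,
      pr (E K) ≤ (1 - 1 / (N : ℝ)) ^ (κ * (κ - 1) / 2) := by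
    intro K hK
    have hKc : K.card = κ := (Finset.mem_powersetCard.mp hK).2
    by_cases hall : ∀ x ∈ pairsIn K, ∃ i e, emb i e = some x
    · have hc : ∀ x : Edge V, x ∈ pairsIn K → ∃ p : Fin Λ × J, emb p.1 p.2 = some x := by
        intro x hx
        obtain ⟨i, e, h⟩ := hall x hx
        exact ⟨(i, e), h⟩
      choose c hcs using hc
      set T : Finset (Fin Λ × J) := (pairsIn K).attach.image (fun x => c x.1 x.2) with hT
      have hTc : T.card = (pairsIn K).card := by
        rw [hT, Finset.card_image_of_injective, Finset.card_attach]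
        rintro ⟨x, hx⟩ ⟨y, hy⟩ hxy
        simp only at hxy
        have h1 := hcs x hx
        have h2 := hcs y hy
        rw [hxy, h2] at h1
        exact Subtype.ext (Option.some.inj h1).symm
      have h1 : pr (E K) = pr (fun ω : Fin Λ × J → Fin N =>
          E K (Equiv.curry (Fin Λ) J (Fin N) ω)) :=
        (pr_equiv (Equiv.curry (Fin Λ) J (Fin N)) (E K)).symm
      rw [h1]
      refine (pr_mono (F := fun ω : Fin Λ × J → Fin N => ∀ j ∈ T, (ω j).val ≠ 0) ?_).trans
        ((pr_coords_le hN T).trans ?_)
      · intro ω hω j hj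
        rw [hT, Finset.mem_image] at hj
        obtain ⟨⟨x, hx⟩, -, rfl⟩ := hj
        obtain ⟨i, e, hie, hne⟩ := hω x hx
        obtain ⟨hi, he⟩ := hinj i (c x hx).1 e (c x hx).2 x hie (hcs x hx)
        have h2 : c x hx = (i, e) := by
          rw [hi, he]
        simp only
        rw [h2]
        exact hne
      · rw [hTc]
        refine pow_le_pow_of_le_one hq0 hq1 ?_
        have := card_pairsIn K
        rw [hKc] at this
        exact this
    · push Not at hall
      obtain ⟨x, hx, hno⟩ := hall
      have h1 : pr (E K) ≤ pr (fun _ : Fin Λ → (J → Fin N) => False) := by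
        refine pr_mono fun ω hω => ?_
        obtain ⟨i, e, hie, -⟩ := hω x hx
        exact hno i e hie
      rw [pr_false] at h1
      exact h1.trans (pow_nonneg hq0 _)
  -- union bound
  have hsub : ∀ ω : Fin Λ → (J → Fin N), ¬ (toGraph (fun x : Edge V =>
      decide (∃ i e, emb i e = some x ∧ (ω i e).val ≠ 0))).CliqueFree κ →
      ∃ K ∈ (univ : Finset (Fin V)).powersetCard κ, E K ω := by
    intro ω hω
    unfold SimpleGraph.CliqueFree at hω
    push Not at hω
    obtain ⟨K, hK⟩ := hω
    refine ⟨K, Finset.mem_powersetCard.mpr ⟨Finset.subset_univ _, hK.card_eq⟩, ?_⟩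
    intro x hx
    simp only [pairsIn, Finset.mem_filter, Finset.mem_univ, true_and] at hx
    have hne : x.1.1 ≠ x.1.2 := ne_of_lt x.2
    have hadj := hK.isClique (Finset.mem_coe.mpr hx.1) (Finset.mem_coe.mpr hx.2) hne
    obtain ⟨y, hy, hy2⟩ := hadj
    have hyx : y = x := by
      rcases hy2 with h | h
      · exact Subtype.ext h
      · exfalso
        have h3 := y.2
        rw [h] at h3
        exact lt_asymm h3 x.2
    rw [hyx] at hy
    exact of_decide_eq_true hy
  refine (pr_mono hsub).trans ((pr_exists_le _ E).trans ((Finset.sum_le_sum hone).trans ?_))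
  rw [Finset.sum_const, nsmul_eq_mul, Finset.card_powersetCard, Finset.card_univ, Fintype.card_fin]
  refine le_trans (mul_le_mul_of_nonneg_right ?_ (pow_nonneg hq0 _)) h3
  exact_mod_cast Nat.choose_le_pow V κ

end Pool.Agent.H7N
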