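import Pool.Agent.H7N.Defs
import Pool.Agent.H7N.BDefs

/-!
JOB NEG-GEO. Edge-disjoint blocks from the lines of an affine plane, and the embedding of the edges.

* `exists_blocks`: identify Fin (q*q) with ZMod q × ZMod q (or Fin q × Fin q), Blk k w = Fin k × Fin w
  with x = a.1 * w + a.2 < k*w <= q (`finProdFinEquiv`), and Fin (k*w) × Fin q with a subset of Fin V
  ((x,y) ↦ x * q + y). The block (α, β) sends a to (x, α x + β mod q). Two blocks with two common
  vertices x ≠ x' : α x + β = α' x + β', α x' + β = α' x' + β' in the field ZMod q, x ≠ x' mod q since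
  x, x' < q; so α = α', β = β'.
* `exists_emb`: emb i s(a,b) = none if a = b, and the ordered pair of φ i a, φ i b (they are different)
  if a ≠ b (`Sym2.lift` or choose it with classical choice).
-/

namespace Pool.Agent.H7N

/-- the index of a vertex of a block -/
def geoX {k w : ℕ} (a : Blk k w) : Fin (k * w) := finProdFinEquiv a

/-- the second coordinate of a vertex on the line `(α, β)` -/
def geoY {k w : ℕ} (q : ℕ) (i : Fin (q * q)) (a : Blk k w) : ZMod q :=
  ((finProdFinEquiv.symm i).1.val : ZMod q) * ((geoX a).val : ZMod q) +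
    ((finProdFinEquiv.symm i).2.val : ZMod q)

theorem geo_lt {k w q V : ℕ} (hq : q.Prime) (h2 : k * w * q ≤ V) (i : Fin (q * q)) (a : Blk k w) :
    (geoX a).val * q + (geoY q i a).val < V := by
  have : NeZero q := ⟨hq.ne_zero⟩
  have hy : (geoY q i a).val < q := ZMod.val_lt _
  have hx : (geoX a).val + 1 ≤ k * w := (geoX a).2
  have : ((geoX a).val + 1) * q ≤ k * w * q := Nat.mul_le_mul_right q hx
  nlinarith

theorem fin_cast_inj {q : ℕ} {m n : ℕ} (hm : m < q) (hn : n < q) (h : (m : ZMod q) = (n : ZMod q)) :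
    m = n := by
  rw [ZMod.natCast_eq_natCast_iff'] at h
  rwa [Nat.mod_eq_of_lt hm, Nat.mod_eq_of_lt hn] at h

theorem exists_blocks {k w q V : ℕ} (hq : q.Prime) (h1 : k * w ≤ q) (h2 : k * w * q ≤ V) :
    ∃ φ : Fin (q * q) → Blk k w → Fin V, (∀ i, Function.Injective (φ i)) ∧
      ∀ i j a b a' b', a ≠ b → φ i a = φ j a' → φ i b = φ j b' → i = j ∧ a = a' ∧ b = b' := by
  have : Fact q.Prime := ⟨hq⟩
  have : NeZero q := ⟨hq.ne_zero⟩
  have key : ∀ (i j : Fin (q * q)) (a a' : Blk k w),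
      (geoX a).val * q + (geoY q i a).val = (geoX a').val * q + (geoY q j a').val →
      a = a' ∧ geoY q i a = geoY q j a' := by
    intro i j a a' h
    have hy : (geoY q i a).val < q := ZMod.val_lt _
    have hy' : (geoY q j a').val < q := ZMod.val_lt _
    have hd : (geoX a).val = (geoX a').val := by
      have e1 : ((geoX a).val * q + (geoY q i a).val) / q = (geoX a).val := by
        rw [Nat.mul_comm, Nat.mul_add_div hq.pos, Nat.div_eq_of_lt hy, Nat.add_zero]
      have e2 : ((geoX a').val * q + (geoY q j a').val) / q = (geoX a').val := by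
        rw [Nat.mul_comm, Nat.mul_add_div hq.pos, Nat.div_eq_of_lt hy', Nat.add_zero]
      rw [← e1, ← e2, h]
    have hm : (geoY q i a).val = (geoY q j a').val := by
      rw [hd] at h
      exact Nat.add_left_cancel h
    exact ⟨finProdFinEquiv.injective (Fin.ext hd), ZMod.val_injective q hm⟩
  refine ⟨fun i a => ⟨(geoX a).val * q + (geoY q i a).val, geo_lt hq h2 i a⟩, ?_, ?_⟩
  · intro i a a' h
    exact (key i i a a' (by simpa using h)).1
  · intro i j a b a' b' hab h3 h4
    obtain ⟨ea, ya⟩ := key i j a a' (by simpa using h3)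
    obtain ⟨eb, yb⟩ := key i j b b' (by simpa using h4)
    refine ⟨?_, ea, eb⟩
    subst ea
    subst eb
    have hxa : (geoX a).val < q := lt_of_lt_of_le (geoX a).2 h1
    have hxb : (geoX b).val < q := lt_of_lt_of_le (geoX b).2 h1
    have hne : ((geoX a).val : ZMod q) - ((geoX b).val : ZMod q) ≠ 0 := by
      intro h0
      have h5 := fin_cast_inj hxa hxb (sub_eq_zero.1 h0)
      exact hab (finProdFinEquiv.injective (Fin.ext h5))
    unfold geoY at ya yb
    have e1 : (((finProdFinEquiv.symm i).1.val : ZMod q) - ((finProdFinEquiv.symm j).1.val : ZMod q)) *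
        (((geoX a).val : ZMod q) - ((geoX b).val : ZMod q)) = 0 := by
      linear_combination ya - yb
    have e2 : ((finProdFinEquiv.symm i).1.val : ZMod q) = ((finProdFinEquiv.symm j).1.val : ZMod q) := by
      rcases mul_eq_zero.1 e1 with h | h
      · exact sub_eq_zero.1 h
      · exact absurd h hne
    have e3 : ((finProdFinEquiv.symm i).2.val : ZMod q) = ((finProdFinEquiv.symm j).2.val : ZMod q) := by
      rw [e2] at ya
      exact add_left_cancel ya
    have f2 := fin_cast_inj (finProdFinEquiv.symm i).1.2 (finProdFinEquiv.symm j).1.2 e2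
    have f3 := fin_cast_inj (finProdFinEquiv.symm i).2.2 (finProdFinEquiv.symm j).2.2 e3
    apply finProdFinEquiv.symm.injective
    exact Prod.ext (Fin.ext f2) (Fin.ext f3)

open Classical in
/-- the edge of the big graph which is the image of an edge of a block -/
noncomputable def geoEmb {k w V Λ : ℕ} (φ : Fin Λ → Blk k w → Fin V) (i : Fin Λ)
    (e : Sym2 (Blk k w)) : Option (Edge V) :=
  if h : ∃ x : Edge V, ∃ a b : Blk k w, a ≠ b ∧ e = s(a, b) ∧
      (x.1 = (φ i a, φ i b) ∨ x.1 = (φ i b, φ i a)) then some h.choose else none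

theorem geoEmb_spec {k w V Λ : ℕ} {φ : Fin Λ → Blk k w → Fin V} {i : Fin Λ}
    {e : Sym2 (Blk k w)} {x : Edge V} (h : geoEmb φ i e = some x) :
    ∃ a b : Blk k w, a ≠ b ∧ e = s(a, b) ∧ (x.1 = (φ i a, φ i b) ∨ x.1 = (φ i b, φ i a)) := by
  unfold geoEmb at h
  split_ifs at h with hc
  have := hc.choose_spec
  rw [Option.some.inj h] at this
  exact this

theorem exists_emb {k w V Λ : ℕ} (φ : Fin Λ → Blk k w → Fin V)
    (hφ : ∀ i, Function.Injective (φ i))
    (hφ2 : ∀ i j a b a' b', a ≠ b → φ i a = φ j a' → φ i b = φ j b' → i = j ∧ a = a' ∧ b = b') :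
    ∃ emb : Fin Λ → Sym2 (Blk k w) → Option (Edge V),
      (∀ i j e e' x, emb i e = some x → emb j e' = some x → i = j ∧ e = e') ∧
      ∀ i a b, a ≠ b → ∃ e : Edge V, emb i s(a, b) = some e ∧
        (e.1 = (φ i a, φ i b) ∨ e.1 = (φ i b, φ i a)) := by
  refine ⟨geoEmb φ, ?_, ?_⟩
  · intro i j e e' x h h'
    obtain ⟨a, b, hab, rfl, h1⟩ := geoEmb_spec h
    obtain ⟨a', b', _, rfl, h2⟩ := geoEmb_spec h'
    rcases h1 with h1 | h1 <;> rcases h2 with h2 | h2 <;> rw [h1] at h2 <;>
      obtain ⟨p1, p2⟩ := Prod.mk.inj h2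
    · obtain ⟨r, rfl, rfl⟩ := hφ2 i j a b a' b' hab p1 p2
      exact ⟨r, rfl⟩
    · obtain ⟨r, rfl, rfl⟩ := hφ2 i j a b b' a' hab p1 p2
      exact ⟨r, Sym2.eq_swap⟩
    · obtain ⟨r, rfl, rfl⟩ := hφ2 i j a b b' a' hab p2 p1
      exact ⟨r, Sym2.eq_swap⟩
    · obtain ⟨r, rfl, rfl⟩ := hφ2 i j a b a' b' hab p2 p1
      exact ⟨r, rfl⟩
  · intro i a b hab
    have hne : φ i a ≠ φ i b := fun h => hab (hφ i h)
    have hex : ∃ x : Edge V, ∃ a' b' : Blk k w, a' ≠ b' ∧ s(a, b) = s(a', b') ∧
        (x.1 = (φ i a', φ i b') ∨ x.1 = (φ i b', φ i a')) := by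
      rcases lt_or_gt_of_ne hne with h | h
      · exact ⟨⟨(φ i a, φ i b), h⟩, a, b, hab, rfl, Or.inl rfl⟩
      · exact ⟨⟨(φ i b, φ i a), h⟩, a, b, hab, rfl, Or.inr rfl⟩
    refine ⟨hex.choose, ?_, ?_⟩
    · unfold geoEmb
      rw [dif_pos hex]
    · obtain ⟨a', b', _, he, h⟩ := hex.choose_spec
      rw [Sym2.eq_iff] at he
      rcases he with ⟨rfl, rfl⟩ | ⟨rfl, rfl⟩
      · exact h
      · exact h.symm

end Pool.Agent.H7N
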