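import Pool.Agent.H7N.Neg

/-!
Circuits of AND/OR gates with some gates of arbitrary type, and the elimination of these gates:
a circuit with `r` gates of arbitrary type and fan-in `f` gives at most `2 ^ r * (f + 1)` functions
of monotone circuits of the same size such that one of them changes whenever the circuit changes.
-/

namespace Pool.Agent.H7N

open Finset

set_option linter.unusedSectionVars false

variable {V : Type}

theorem mixed_to_mono {f t r : ℕ} {L : List ((V → Bool) → Bool)} (h : Mixed f t r L) :
    ∃ (L' : List ((V ⊕ Fin r → Bool) → Bool)) (h' : Fin r → Fin f → (V ⊕ Fin r → Bool) → Bool)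
      (g : Fin r → (Fin f → Bool) → Bool),
      Circuit t 0 L' ∧ (∀ j i, Source L' (h' j i)) ∧
      (∀ x : V → Bool, ∃ b : Fin r → Bool, ∀ j, b j = g j (fun i => h' j i (ext x b))) ∧
      (∀ u, Source L u → ∃ u', Source L' u' ∧
        ∀ x b, (∀ j, b j = g j (fun i => h' j i (ext x b))) → u x = u' (ext x b)) ∧
      (∀ (j : Fin r) (i : Fin f) (x : V → Bool) (b b' : Fin r → Bool),
        (∀ i', i' < j → b i' = b' i') → h' j i (ext x b) = h' j i (ext x b')) := by
  induction h with
  | nil =>
    refine ⟨[], fun j => Fin.elim0 j, fun j => Fin.elim0 j, Circuit.nil, fun j => Fin.elim0 j,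
      fun x => ⟨fun j => Fin.elim0 j, fun j => Fin.elim0 j⟩, ?_, fun j => Fin.elim0 j⟩
    intro u hu
    rcases hu with ⟨v, rfl⟩ | ⟨c, rfl⟩ | hu
    · exact ⟨fun a => a (Sum.inl v), Or.inl ⟨_, rfl⟩, fun x b _ => rfl⟩
    · exact ⟨fun _ => c, Or.inr (Or.inl ⟨c, rfl⟩), fun x b _ => rfl⟩
    · simp at hu
  | @and t r L u v hL hu hv ih =>
    obtain ⟨L', h', g, hL', hh', hex, hsrc, hdep⟩ := ih
    obtain ⟨u', hu', huu⟩ := hsrc u hu
    obtain ⟨v', hv', hvv⟩ := hsrc v hv
    refine ⟨(fun a => u' a && v' a) :: L', h', g, Circuit.and hL' hu' hv', ?_, hex, ?_, hdep⟩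
    · intro j i
      rcases hh' j i with h | h | h
      · exact Or.inl h
      · exact Or.inr (Or.inl h)
      · exact Or.inr (Or.inr (List.mem_cons_of_mem _ h))
    · intro g0 hg
      rcases hg with ⟨w, rfl⟩ | ⟨c, rfl⟩ | hg
      · exact ⟨fun a => a (Sum.inl w), Or.inl ⟨_, rfl⟩, fun x b _ => rfl⟩
      · exact ⟨fun _ => c, Or.inr (Or.inl ⟨c, rfl⟩), fun x b _ => rfl⟩
      · rw [List.mem_cons] at hg
        rcases hg with rfl | hg
        · refine ⟨fun a => u' a && v' a, Or.inr (Or.inr (by simp)), fun x b hb => ?_⟩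
          simp only
          rw [huu x b hb, hvv x b hb]
        · obtain ⟨g', hg', hgg⟩ := hsrc g0 (Or.inr (Or.inr hg))
          refine ⟨g', ?_, hgg⟩
          rcases hg' with h | h | h
          · exact Or.inl h
          · exact Or.inr (Or.inl h)
          · exact Or.inr (Or.inr (List.mem_cons_of_mem _ h))
  | @or t r L u v hL hu hv ih =>
    obtain ⟨L', h', g, hL', hh', hex, hsrc, hdep⟩ := ih
    obtain ⟨u', hu', huu⟩ := hsrc u hu
    obtain ⟨v', hv', hvv⟩ := hsrc v hv
    refine ⟨(fun a => u' a || v' a) :: L', h', g, Circuit.or hL' hu' hv', ?_, hex, ?_, hdep⟩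
    · intro j i
      rcases hh' j i with h | h | h
      · exact Or.inl h
      · exact Or.inr (Or.inl h)
      · exact Or.inr (Or.inr (List.mem_cons_of_mem _ h))
    · intro g0 hg
      rcases hg with ⟨w, rfl⟩ | ⟨c, rfl⟩ | hg
      · exact ⟨fun a => a (Sum.inl w), Or.inl ⟨_, rfl⟩, fun x b _ => rfl⟩
      · exact ⟨fun _ => c, Or.inr (Or.inl ⟨c, rfl⟩), fun x b _ => rfl⟩
      · rw [List.mem_cons] at hg
        rcases hg with rfl | hg
        · refine ⟨fun a => u' a || v' a, Or.inr (Or.inr (by simp)), fun x b hb => ?_⟩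
          simp only
          rw [huu x b hb, hvv x b hb]
        · obtain ⟨g', hg', hgg⟩ := hsrc g0 (Or.inr (Or.inr hg))
          refine ⟨g', ?_, hgg⟩
          rcases hg' with h | h | h
          · exact Or.inl h
          · exact Or.inr (Or.inl h)
          · exact Or.inr (Or.inr (List.mem_cons_of_mem _ h))
  | @any t r L gg u hL hu ih =>
    obtain ⟨L', h', g, hL', hh', hex, hsrc, hdep⟩ := ih
    choose u' hu' huu using fun i => hsrc (u i) (hu i)
    -- forget the last additional input
    let θ : (V ⊕ Fin (r + 1) → Bool) → (V ⊕ Fin r → Bool) :=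
      fun y => Sum.elim (fun v => y (Sum.inl v)) (fun j => y (Sum.inr (Fin.castSucc j)))
    have hθ : ∀ v', (∃ v, (fun a => θ a v') = fun a => a v) ∨
        ∃ c : Bool, (fun a => θ a v') = fun _ => c := by
      intro v'
      left
      rcases v' with v | j
      · exact ⟨Sum.inl v, rfl⟩
      · exact ⟨Sum.inr (Fin.castSucc j), rfl⟩
    have hθe : ∀ (x : V → Bool) (b : Fin (r + 1) → Bool),
        θ (ext x b) = ext x (fun j => b (Fin.castSucc j)) := by
      intro x b
      funext v'
      rcases v' with v | j <;> rfl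
    obtain ⟨H, hH⟩ : ∃ H : Fin (r + 1) → Fin f → (V ⊕ Fin (r + 1) → Bool) → Bool,
        H = Fin.snoc (α := fun _ => Fin f → (V ⊕ Fin (r + 1) → Bool) → Bool)
        (fun j i a => h' j i (θ a)) (fun i a => u' i (θ a)) := ⟨_, rfl⟩
    obtain ⟨G, hG⟩ : ∃ G : Fin (r + 1) → (Fin f → Bool) → Bool,
        G = Fin.snoc (α := fun _ => (Fin f → Bool) → Bool) g gg := ⟨_, rfl⟩
    have hHl : H (Fin.last r) = fun i a => u' i (θ a) := by rw [hH, Fin.snoc_last]
    have hHc : ∀ j, H (Fin.castSucc j) = fun i a => h' j i (θ a) := by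
      intro j; rw [hH, Fin.snoc_castSucc]
    have hGl : G (Fin.last r) = gg := by rw [hG, Fin.snoc_last]
    have hGc : ∀ j, G (Fin.castSucc j) = g j := by intro j; rw [hG, Fin.snoc_castSucc]
    refine ⟨L'.map (fun g => fun a => g (θ a)), H, G, circuit_subst θ hθ hL', ?_, ?_, ?_, ?_⟩
    · intro j i
      refine Fin.lastCases ?_ (fun j => ?_) j
      · rw [hHl]
        exact source_subst θ hθ (hu' i)
      · rw [hHc]
        exact source_subst θ hθ (hh' j i)
    · intro x
      obtain ⟨b, hb⟩ := hex x
      refine ⟨Fin.snoc (α := fun _ => Bool) b (gg (fun i => u' i (ext x b))), ?_⟩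
      have e1 : θ (ext x (Fin.snoc (α := fun _ => Bool) b (gg (fun i => u' i (ext x b))))) =
          ext x b := by
        rw [hθe]
        congr 1
        funext j
        simp
      intro j
      refine Fin.lastCases ?_ (fun j => ?_) j
      · rw [Fin.snoc_last, hHl, hGl]
        simp only [e1]
      · rw [Fin.snoc_castSucc, hHc, hGc]
        simp only [e1]
        exact hb j
    · intro g0 hg
      have hold : ∀ x (b : Fin (r + 1) → Bool), (∀ j, b j = G j (fun i => H j i (ext x b))) →
          (∀ j : Fin r, b (Fin.castSucc j) =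
            g j (fun i => h' j i (ext x (fun j => b (Fin.castSucc j))))) ∧
            b (Fin.last r) = gg (fun i => u' i (ext x (fun j => b (Fin.castSucc j)))) := by
        intro x b hb
        constructor
        · intro j
          have := hb (Fin.castSucc j)
          rw [hHc, hGc] at this
          simp only [hθe] at this
          exact this
        · have := hb (Fin.last r)
          rw [hHl, hGl] at this
          simp only [hθe] at this
          exact this
      have hlift : ∀ g0, Source L g0 → ∃ g', Source (L'.map (fun g => fun a => g (θ a))) g' ∧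
          ∀ x (b : Fin (r + 1) → Bool), (∀ j, b j = G j (fun i => H j i (ext x b))) →
            g0 x = g' (ext x b) := by
        intro g0 hg
        obtain ⟨g', hg', hgg⟩ := hsrc g0 hg
        refine ⟨fun a => g' (θ a), source_subst θ hθ hg', fun x b hb => ?_⟩
        rw [hgg x _ (hold x b hb).1]
        simp only [hθe]
      rcases hg with ⟨w, rfl⟩ | ⟨c, rfl⟩ | hg
      · exact hlift _ (Or.inl ⟨w, rfl⟩)
      · exact hlift _ (Or.inr (Or.inl ⟨c, rfl⟩))
      · rw [List.mem_cons] at hg
        rcases hg with rfl | hg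
        · refine ⟨fun a => a (Sum.inr (Fin.last r)), Or.inl ⟨_, rfl⟩, fun x b hb => ?_⟩
          obtain ⟨h1, h2⟩ := hold x b hb
          have e2 : (fun i => u i x) = fun i => u' i (ext x (fun j => b (Fin.castSucc j))) := by
            funext i
            exact huu i x _ h1
          simp only
          rw [e2, ← h2]
          rfl
        · exact hlift _ (Or.inr (Or.inr hg))
    · intro j i x b b'
      refine Fin.lastCases ?_ (fun j => ?_) j
      · intro hbb
        rw [hHl]
        simp only [hθe]
        have : (fun j : Fin r => b (Fin.castSucc j)) = fun j => b' (Fin.castSucc j) := by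
          funext j
          exact hbb _ (Fin.castSucc_lt_last j)
        rw [this]
      · intro hbb
        rw [hHc]
        simp only [hθe]
        exact hdep j i x _ _ (fun i hi => hbb _ (by simpa using hi))

/-- the indices of the monotone functions: for the inputs of the `j`-th gate of arbitrary type
only the bits before `j` matter -/
def MIdx (r f : ℕ) : Finset ((Fin r → Bool) × Option (Fin r × Fin f)) :=
  univ.filter (fun p => ∀ ji, p.2 = some ji → ∀ i, ji.1 ≤ i → p.1 i = false)

theorem card_MIdx_le (r f : ℕ) : (MIdx r f).card ≤ 2 ^ r * (f + 1) := by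
  classical
  have h1 : MIdx r f ⊆ (univ : Finset (Option (Fin r × Fin f))).biUnion (fun o =>
      (univ.filter (fun b : Fin r → Bool => ∀ ji, o = some ji → ∀ i, ji.1 ≤ i →
        b i = false)).image (fun b => (b, o))) := by
    rintro ⟨b, o⟩ hp
    rw [MIdx, Finset.mem_filter] at hp
    rw [Finset.mem_biUnion]
    refine ⟨o, mem_univ _, Finset.mem_image.2 ⟨b, ?_, rfl⟩⟩
    rw [Finset.mem_filter]
    exact ⟨mem_univ _, hp.2⟩
  have h2 : ∀ o : Option (Fin r × Fin f), ((univ.filter (fun b : Fin r → Bool =>
      ∀ ji, o = some ji → ∀ i, ji.1 ≤ i → b i = false)).image (fun b => (b, o))).card ≤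
      (match o with | none => 2 ^ r | some ji => 2 ^ (ji.1 : ℕ)) := by
    intro o
    refine Finset.card_image_le.trans ?_
    cases o with
    | none =>
      refine (Finset.card_filter_le _ _).trans ?_
      simp
    | some ji =>
      refine le_trans (Finset.card_le_card ?_) (card_prefix_le r ji.1)
      intro b hb
      rw [Finset.mem_filter] at hb ⊢
      exact ⟨mem_univ _, hb.2 ji rfl⟩
  refine (Finset.card_le_card h1).trans ((Finset.card_biUnion_le).trans
    ((Finset.sum_le_sum (fun o _ => h2 o)).trans ?_))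
  rw [Fintype.sum_option]
  simp only
  rw [Fintype.sum_prod_type]
  simp only [Finset.sum_const, Finset.card_univ, Fintype.card_fin, smul_eq_mul]
  rw [← Finset.mul_sum, Fin.sum_univ_eq_sum_range (fun i => 2 ^ i) r]
  have h3 : ∑ i ∈ range r, 2 ^ i < 2 ^ r :=
    Nat.geomSum_lt (by norm_num) (fun i hi => by simpa using hi)
  calc 2 ^ r + f * ∑ i ∈ range r, 2 ^ i ≤ 2 ^ r + f * 2 ^ r :=
        Nat.add_le_add_left (Nat.mul_le_mul_left f h3.le) _
    _ = 2 ^ r * (f + 1) := by ring

/-- The monotone functions obtained by fixing the outputs of the gates of arbitrary type. -/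
theorem mixed_family {f t r : ℕ} {L : List ((V → Bool) → Bool)} (h : Mixed f t r L)
    {F : (V → Bool) → Bool} (hF : Source L F) :
    ∃ 𝒢 : (Fin r → Bool) × Option (Fin r × Fin f) → (V → Bool) → Bool,
      (∀ p, ∃ L' : List ((V → Bool) → Bool), Circuit t 0 L' ∧ Source L' (𝒢 p)) ∧
      ∀ x y : V → Bool, F x ≠ F y → ∃ p ∈ MIdx r f, 𝒢 p x ≠ 𝒢 p y := by
  obtain ⟨L', h', g, hL', hh', hex, hsrc, hdep⟩ := mixed_to_mono h
  obtain ⟨F', hF', hFF⟩ := hsrc F hF
  have hθ : ∀ b : Fin r → Bool, ∀ v', (∃ v, (fun a : V → Bool => ext a b v') = fun a => a v) ∨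
      ∃ c : Bool, (fun a : V → Bool => ext a b v') = fun _ => c := by
    intro b v'
    rcases v' with v | j
    · exact Or.inl ⟨v, rfl⟩
    · exact Or.inr ⟨b j, rfl⟩
  refine ⟨fun p x => match p.2 with
    | none => F' (ext x p.1)
    | some ji => h' ji.1 ji.2 (ext x p.1), ?_, ?_⟩
  · rintro ⟨b, j⟩
    refine ⟨_, circuit_subst (fun a => ext a b) (hθ b) hL', ?_⟩
    cases j with
    | none => exact source_subst (fun a => ext a b) (hθ b) hF'
    | some ji => exact source_subst (fun a => ext a b) (hθ b) (hh' ji.1 ji.2)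
  · intro x y hxy
    obtain ⟨b, hb⟩ := hex x
    by_cases hall : ∀ j i, h' j i (ext x b) = h' j i (ext y b)
    · refine ⟨(b, none), ?_, ?_⟩
      · rw [MIdx, Finset.mem_filter]
        exact ⟨mem_univ _, fun j hj => by simp at hj⟩
      · have h1 := hFF x b hb
        have h2 := hFF y b (fun j => by
          have : (fun i => h' j i (ext y b)) = fun i => h' j i (ext x b) := by
            funext i
            exact (hall j i).symm
          rw [this]
          exact hb j)
        simp only
        rw [← h1, ← h2]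
        exact hxy
    · push Not at hall
      obtain ⟨j, i, hj⟩ := hall
      have hpre : ∀ i, i < j → b i = (fun i => if i < j then b i else false) i := by
        intro i hi
        simp [hi]
      refine ⟨((fun i => if i < j then b i else false), some (j, i)), ?_, ?_⟩
      · rw [MIdx, Finset.mem_filter]
        refine ⟨mem_univ _, fun j' hj' i hi => ?_⟩
        simp only [Option.some.injEq] at hj'
        subst hj'
        simp [not_lt.2 hi]
      · simp only
        rw [← hdep j i x b _ hpre, ← hdep j i y b _ hpre]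
        exact hj

end Pool.Agent.H7N
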