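import Pool.Agent.H7N.Param
import Pool.Agent.H7N.Mixed

/-!
The lower bound for the language CLIQUE, for circuits on words of any length `n`: the matrix
coding a graph with `V = ⌊√n⌋` vertices and the number `k = 1000 s ^ 2 log n` is a substitution instance
of the input.
-/

namespace Pool.Agent.H7N

open Finset

/-- the word coding a graph on `Fin V` and the number `k` -/
def code (n V k : ℕ) (a : Edge V → Bool) (p : Fin n) : Bool :=
  if h : p.val / V < V ∧ p.val / V < p.val % V ∧ p.val % V < V then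
    a ⟨(⟨p.val / V, h.1⟩, ⟨p.val % V, h.2.2⟩), h.2.1⟩
  else decide (p.val / V < V ∧ p.val / V = p.val % V ∧ k ≤ p.val / V)

theorem code_cases (n V k : ℕ) (p : Fin n) :
    (∃ v, (fun a : Edge V → Bool => code n V k a p) = fun a => a v) ∨
      ∃ c : Bool, (fun a : Edge V → Bool => code n V k a p) = fun _ => c := by
  by_cases h : p.val / V < V ∧ p.val / V < p.val % V ∧ p.val % V < V
  · left
    refine ⟨⟨(⟨p.val / V, h.1⟩, ⟨p.val % V, h.2.2⟩), h.2.1⟩, ?_⟩
    funext a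
    simp only [code, dif_pos h]
  · right
    refine ⟨decide (p.val / V < V ∧ p.val / V = p.val % V ∧ k ≤ p.val / V), ?_⟩
    funext a
    simp only [code, dif_neg h]

theorem entry_ofFn {n : ℕ} (x : Fin n → Bool) {i j : ℕ} (h : i * Nat.sqrt n + j < n) :
    entry (List.ofFn x) i j = x ⟨i * Nat.sqrt n + j, h⟩ := by
  unfold entry
  rw [List.length_ofFn, List.getD_eq_getElem _ _ (by rw [List.length_ofFn]; exact h)]
  simp

theorem pos_lt {n i j : ℕ} (hi : i < Nat.sqrt n) (hj : j < Nat.sqrt n) :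
    i * Nat.sqrt n + j < n := by
  have h1 : Nat.sqrt n * Nat.sqrt n ≤ n := Nat.sqrt_le n
  have h2 : (i + 1) * Nat.sqrt n ≤ Nat.sqrt n * Nat.sqrt n := Nat.mul_le_mul_right _ hi
  have h3 : (i + 1) * Nat.sqrt n = i * Nat.sqrt n + Nat.sqrt n := by ring
  omega

theorem entry_code {n k : ℕ} (a : Edge (Nat.sqrt n) → Bool) {i j : ℕ}
    (hi : i < Nat.sqrt n) (hj : j < Nat.sqrt n) :
    entry (List.ofFn (code n (Nat.sqrt n) k a)) i j =
      if h : i < j then a ⟨(⟨i, hi⟩, ⟨j, hj⟩), h⟩ else decide (i = j ∧ k ≤ i) := by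
  rw [entry_ofFn _ (pos_lt hi hj)]
  have hV : 0 < Nat.sqrt n := by omega
  have hdiv : (i * Nat.sqrt n + j) / Nat.sqrt n = i := by
    rw [mul_comm, Nat.mul_add_div hV, Nat.div_eq_of_lt hj, add_zero]
  have hmod : (i * Nat.sqrt n + j) % Nat.sqrt n = j := by
    rw [mul_comm, Nat.mul_add_mod, Nat.mod_eq_of_lt hj]
  unfold code
  simp only [hdiv, hmod]
  by_cases h : i < j
  · rw [dif_pos ⟨hi, h, hj⟩, dif_pos h]
  · rw [dif_neg (fun h' => h h'.2.1), dif_neg h]
    simp [hi]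

theorem code_mem_iff {n k : ℕ} (hk : k ≤ Nat.sqrt n) (a : Edge (Nat.sqrt n) → Bool) :
    List.ofFn (code n (Nat.sqrt n) k a) ∈ cliqueLang ↔ ¬ (toGraph a).CliqueFree k := by
  classical
  have hlen : (List.ofFn (code n (Nat.sqrt n) k a)).length = n := List.length_ofFn
  have hdiag : ((Finset.range (Nat.sqrt n)).filter
      fun i => entry (List.ofFn (code n (Nat.sqrt n) k a)) i i = false) = Finset.range k := by
    ext i
    rw [mem_filter, mem_range, mem_range]
    constructor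
    · rintro ⟨hi, h⟩
      rw [entry_code a hi hi, dif_neg (lt_irrefl i)] at h
      have h' := of_decide_eq_false h
      by_contra hc
      exact h' ⟨rfl, not_lt.1 hc⟩
    · intro hi
      have hi' : i < Nat.sqrt n := hi.trans_le hk
      refine ⟨hi', ?_⟩
      rw [entry_code a hi' hi', dif_neg (lt_irrefl i)]
      exact decide_eq_false (fun h => absurd h.2 (not_le.2 hi))
  have hdef : List.ofFn (code n (Nat.sqrt n) k a) ∈ cliqueLang ↔
      ∃ S : Finset ℕ, (∀ i ∈ S, i < Nat.sqrt n) ∧ S.card = k ∧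
        ∀ i ∈ S, ∀ j ∈ S, i < j →
          entry (List.ofFn (code n (Nat.sqrt n) k a)) i j = true := by
    unfold cliqueLang
    rw [Set.mem_ofPred_eq, hlen, hdiag, card_range]
  rw [hdef]
  constructor
  · rintro ⟨S, hS, hc, hcl⟩ hfree
    refine hfree (S.attachFin hS) ?_
    rw [SimpleGraph.isNClique_iff, Finset.card_attachFin]
    refine ⟨?_, hc⟩
    have key : ∀ u v : Fin (Nat.sqrt n), u.val ∈ S → v.val ∈ S → u < v →
        (toGraph a).Adj u v := by
      intro u v hu hv huv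
      have h1 := hcl u.val hu v.val hv huv
      have huv' : u.val < v.val := huv
      rw [entry_code a u.2 v.2, dif_pos huv'] at h1
      exact ⟨⟨(u, v), huv⟩, h1, Or.inl rfl⟩
    intro u hu v hv huv
    have hu' : u.val ∈ S := by simpa using hu
    have hv' : v.val ∈ S := by simpa using hv
    rcases lt_or_gt_of_ne huv with h | h
    · exact key u v hu' hv' h
    · exact (key v u hv' hu' h).symm
  · intro hfree
    unfold SimpleGraph.CliqueFree at hfree
    push Not at hfree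
    obtain ⟨T, hT⟩ := hfree
    rw [SimpleGraph.isNClique_iff] at hT
    refine ⟨T.map Fin.valEmbedding, ?_, ?_, ?_⟩
    · intro i hi
      rw [mem_map] at hi
      obtain ⟨u, _, rfl⟩ := hi
      exact u.2
    · rw [card_map]
      exact hT.2
    · intro i hi j hj hij
      rw [mem_map] at hi hj
      obtain ⟨u, hu, rfl⟩ := hi
      obtain ⟨v, hv, rfl⟩ := hj
      have huv : u < v := hij
      have hne : u ≠ v := ne_of_lt huv
      obtain ⟨e, he, h⟩ := hT.1 (mem_coe.2 hu) (mem_coe.2 hv) hne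
      have hij' : u.val < v.val := hij
      change entry (List.ofFn (code n (Nat.sqrt n) k a)) u.val v.val = true
      rw [entry_code a u.2 v.2, dif_pos hij']
      rcases h with h | h
      · have : e = ⟨(u, v), huv⟩ := Subtype.ext h
        rw [this] at he
        exact he
      · exfalso
        have h2 := e.2
        rw [h] at h2
        exact absurd h2 (not_lt.2 huv.le)

/-- The lower bound for the language CLIQUE on words of length `n`. -/
theorem lang_bound {n s r t f : ℕ} (hn : 2 ≤ n) (hs : Nat.log 2 n ≤ s)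
    (h1 : (10 ^ 15 * s ^ 8 * Nat.log 2 n ^ 4) ^ 2 ≤ n)
    (h2 : 2 ^ r * (f + 1) * (10 ^ 15 * s ^ 8 * Nat.log 2 n ^ 4) ≤ n)
    {L : List ((Fin n → Bool) → Bool)} {F : (Fin n → Bool) → Bool} (hL : Mixed f t r L)
    (hF : Source L F) (hlang : ∀ x : Fin n → Bool, F x = true ↔ List.ofFn x ∈ cliqueLang) :
    2 ^ s ≤ t := by
  obtain ⟨V, hV⟩ : ∃ V, V = Nat.sqrt n := ⟨_, rfl⟩
  have hVn : V * V ≤ n := by rw [hV]; exact Nat.sqrt_le n
  have hnV : n < (V + 1) * (V + 1) := by rw [hV]; exact Nat.lt_succ_sqrt n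
  have hlg1 : 1 ≤ Nat.log 2 n := Nat.log_pos (by norm_num) hn
  obtain ⟨lg, hlg⟩ : ∃ lg, lg = Nat.log 2 n := ⟨_, rfl⟩
  rw [← hlg] at hs h1 h2 hlg1
  have hs1 : 1 ≤ s := hlg1.trans hs
  have hV1 : 1 ≤ V := by
    by_contra h
    have : V = 0 := by omega
    subst this
    omega
  have hn4 : n ≤ 4 * V ^ 2 := by nlinarith
  have hs8 : 1 ≤ s ^ 8 * lg ^ 4 :=
    Nat.mul_pos (Nat.one_le_pow _ _ hs1) (Nat.one_le_pow _ _ hlg1)
  obtain ⟨k, hk⟩ : ∃ k, k = 1000 * s ^ 2 * lg := ⟨_, rfl⟩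
  have hk4 : 1000 * k ^ 4 = 10 ^ 15 * (s ^ 8 * lg ^ 4) := by rw [hk]; ring
  have hkV : 1000 * k ^ 4 ≤ V := by
    rw [hk4]
    have h3 : 10 ^ 15 * s ^ 8 * lg ^ 4 ≤ V := by
      rw [hV, Nat.le_sqrt']
      exact h1
    have h4 : 10 ^ 15 * s ^ 8 * lg ^ 4 = 10 ^ 15 * (s ^ 8 * lg ^ 4) := by ring
    omega
  obtain ⟨M, hM⟩ : ∃ M, M = 2 ^ r * (f + 1) := ⟨_, rfl⟩
  have hkr : 100 * M * k ^ 4 ≤ V ^ 2 := by
    have h3 : M * (10 ^ 15 * s ^ 8 * lg ^ 4) = 10 * (100 * M * k ^ 4) := by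
      calc M * (10 ^ 15 * s ^ 8 * lg ^ 4) = M * (10 ^ 15 * (s ^ 8 * lg ^ 4)) := by ring
        _ = 10 * (100 * M * k ^ 4) := by rw [← hk4]; ring
    rw [← hM, h3] at h2
    omega
  have hk1 : 1 ≤ k := by
    rw [hk]
    have : 1 ≤ s ^ 2 * lg := Nat.mul_pos (Nat.one_le_pow _ _ hs1) hlg1
    have h3 : 1000 * s ^ 2 * lg = 1000 * (s ^ 2 * lg) := by ring
    omega
  have hkleV : k ≤ V := by
    have : k ^ 1 ≤ k ^ 4 := Nat.pow_le_pow_right hk1 (by norm_num)
    rw [pow_one] at this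
    omega
  have hV2 : 2 ≤ V := by
    have : 1 ≤ k ^ 4 := Nat.one_le_pow _ _ hk1
    omega
  have hlogV' : Nat.log 2 V ≤ lg := by
    rw [hlg]
    refine Nat.log_mono_right ?_
    calc V = V * 1 := (mul_one V).symm
      _ ≤ V * V := Nat.mul_le_mul_left V hV1
      _ ≤ n := hVn
  have hks : 1000 * s ^ 2 * Nat.log 2 V ≤ k := by
    rw [hk]
    exact Nat.mul_le_mul_left _ hlogV'
  obtain ⟨𝒢, h𝒢, hdiff⟩ := mixed_family hL hF
  subst hV
  refine clique_family (V := Nat.sqrt n) (k := k) (M := M) hV2 (hlogV'.trans hs) hks hkV hkr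
    (MIdx r f) (hM ▸ card_MIdx_le r f) (fun p a => 𝒢 p (code n (Nat.sqrt n) k a)) ?_
    (F := fun a => F (code n (Nat.sqrt n) k a)) ?_
    (fun a => (hlang _).trans (code_mem_iff hkleV a))
  · intro p
    obtain ⟨L', hL', hsrc⟩ := h𝒢 p
    exact ⟨_, circuit_subst (fun a => code n (Nat.sqrt n) k a) (code_cases n (Nat.sqrt n) k) hL',
      source_subst (fun a => code n (Nat.sqrt n) k a) (code_cases n (Nat.sqrt n) k) hsrc⟩
  · intro x y hxy
    exact hdiff _ _ hxy

end Pool.Agent.H7N
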