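import Pool.Agent.H7N.Neg
import Pool.Agent.H7N.Approx
import Pool.Agent.H7N.Chain
import Pool.Agent.H7N.Free
import Pool.Agent.H7N.Geo

/-!
Assembly: few functions of small monotone circuits do not determine the clique function.
-/

namespace Pool.Agent.H7N

open Finset Pool.Agent.H24

/-- functions of monotone circuits are monotone -/
theorem circuit_mono {I : Type} {t r : ℕ} {L : List ((I → Bool) → Bool)} (hL : Circuit t r L)
    (hr : r = 0) : ∀ u, Source L u → ∀ x y : I → Bool, (∀ e, x e = true → y e = true) →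
      u x = true → u y = true := by
  induction hL with
  | nil =>
    rintro u (⟨i, rfl⟩ | ⟨c, rfl⟩ | hmem) x y hxy hu
    · exact hxy _ hu
    · exact hu
    · simp at hmem
  | @and t r L u v hL hu hv ih =>
    have ih' := ih hr
    rintro g (⟨i, rfl⟩ | ⟨c, rfl⟩ | hg) x y hxy hg'
    · exact hxy _ hg'
    · exact hg'
    · rcases List.mem_cons.1 hg with rfl | hg
      · have h1 : (u x && v x) = true := hg'
        rw [Bool.and_eq_true] at h1
        show (u y && v y) = true
        rw [Bool.and_eq_true]
        exact ⟨ih' u hu x y hxy h1.1, ih' v hv x y hxy h1.2⟩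
      · exact ih' g (Or.inr (Or.inr hg)) x y hxy hg'
  | @or t r L u v hL hu hv ih =>
    have ih' := ih hr
    rintro g (⟨i, rfl⟩ | ⟨c, rfl⟩ | hg) x y hxy hg'
    · exact hxy _ hg'
    · exact hg'
    · rcases List.mem_cons.1 hg with rfl | hg
      · have h1 : (u x || v x) = true := hg'
        rw [Bool.or_eq_true] at h1
        show (u y || v y) = true
        rw [Bool.or_eq_true]
        exact h1.imp (ih' u hu x y hxy) (ih' v hv x y hxy)
      · exact ih' g (Or.inr (Or.inr hg)) x y hxy hg'
  | not _ _ _ => omega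

open Classical in
/-- the edges of block `i` given by `y` -/
noncomputable def push {V Λ : ℕ} {J : Type} (emb : Fin Λ → J → Option (Edge V)) (i : Fin Λ)
    (y : J → Bool) : Edge V → Bool := fun x => decide (∃ e, emb i e = some x ∧ y e = true)

theorem push_subst {V Λ : ℕ} {J : Type} {emb : Fin Λ → J → Option (Edge V)}
    (hinj : ∀ i j e e' x, emb i e = some x → emb j e' = some x → i = j ∧ e = e') (i : Fin Λ)
    (x : Edge V → Bool) (v' : Edge V) :
    (∃ v, (fun y => join x (push emb i y) v') = fun y : J → Bool => y v) ∨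
      ∃ c : Bool, (fun y => join x (push emb i y) v') = fun _ => c := by
  classical
  by_cases hx : x v' = true
  · right
    refine ⟨true, ?_⟩
    funext y
    simp [join, hx]
  · by_cases he : ∃ e, emb i e = some v'
    · obtain ⟨e, he⟩ := he
      left
      refine ⟨e, ?_⟩
      funext y
      have : (∃ e, emb i e = some v' ∧ y e = true) ↔ y e = true := by
        constructor
        · rintro ⟨e', he', hy⟩
          rw [(hinj i i e e' v' he he').2]
          exact hy
        · intro hy
          exact ⟨e, he, hy⟩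
      simp only [join, push, this, hx]
      simp
    · right
      refine ⟨false, ?_⟩
      funext y
      have : ¬ ∃ e, emb i e = some v' ∧ y e = true := fun ⟨e, h, _⟩ => he ⟨e, h⟩
      simp only [join, push, hx]
      simp [this]

theorem toGraph_mono {V : ℕ} {x y : Edge V → Bool} (h : ∀ e, x e = true → y e = true) :
    toGraph x ≤ toGraph y := by
  intro u v huv
  obtain ⟨e, he, h'⟩ := huv
  exact ⟨e, h e he, h'⟩

theorem core {V k w q N l m t M : ℕ} (hq : q.Prime) (h1 : k * w ≤ q) (h2 : k * w * q ≤ V)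
    (hl : 2 ≤ l) (hN : l ^ 2 ≤ N)
    (h3 : (V : ℝ) ^ k * (1 - 1 / (N : ℝ)) ^ (k * (k - 1) / 2) ≤ 1 / 2)
    (h4 : 4 * l * m ≤ w) (hw0 : 0 < w) (h5 : 6 * (t + (k * w + 1) ^ 2) * (k * w + 1) ^ l ≤ 2 ^ m)
    (h6 : 2 * t * q ^ 2 ≤ 2 ^ l) (h7 : 8 * M < q ^ 2)
    {ι : Type} (H : Finset ι) (hcard : H.card ≤ M) (𝒢 : ι → (Edge V → Bool) → Bool)
    (h𝒢 : ∀ p, ∃ L' : List ((Edge V → Bool) → Bool), Circuit t 0 L' ∧ Source L' (𝒢 p))
    {F : (Edge V → Bool) → Bool}
    (hdiff : ∀ x y : Edge V → Bool, F x ≠ F y → ∃ p ∈ H, 𝒢 p x ≠ 𝒢 p y)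
    (hclq : ∀ x : Edge V → Bool, F x = true ↔ ¬ (toGraph x).CliqueFree k) :
    False := by
  classical
  have hNpos : 0 < N := lt_of_lt_of_le (by positivity) hN
  have : NeZero N := ⟨hNpos.ne'⟩
  have : Nonempty (Fin k → Fin w) := ⟨fun _ => ⟨0, hw0⟩⟩
  obtain ⟨φ, hφ, hφ2⟩ := exists_blocks hq h1 h2
  obtain ⟨emb, hinj, hemb⟩ := exists_emb φ hφ hφ2
  set δ : ℝ := t * (2 * (1 / 2 : ℝ) ^ l) with hδ
  have hδ0 : 0 ≤ δ := by positivity
  have hq0 : 0 < q := hq.pos
  -- the chain bound for every function of the family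
  have hchain : ∀ p, ∑ i : Fin (q * q), pr (fun z : (Fin (q * q) → Smp k w N) × (Fin k → Fin w) =>
      𝒢 p (pre (push emb) noise z.1 i) = false ∧
      𝒢 p (join (pre (push emb) noise z.1 i) (push emb i (plant z.2))) = true) ≤
      3 + ((q * q : ℕ) : ℝ) * δ := by
    intro p
    obtain ⟨L', hL', hsrc⟩ := h𝒢 p
    apply chain_bound (push emb) noise plant (𝒢 p) (circuit_mono hL' rfl _ hsrc) δ hδ0
    intro i x
    have hc := circuit_subst (fun y : Inp k w => join x (push emb i y)) (push_subst hinj i x) hL'
    have hs := source_subst (fun y : Inp k w => join x (push emb i y)) (push_subst hinj i x) hsrc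
    exact dichotomy hl hN h4 hw0 h5 hc hs
  -- the noise is clique free with probability at least 1/2
  have hfree := clique_free_prob emb hinj hNpos h3
  set T : (Fin (q * q) → Smp k w N) → Edge V → Bool := fun ω x =>
    decide (∃ i e, emb i e = some x ∧ (ω i e).val ≠ 0) with hT
  have hPT : ∀ ω (i : ℕ) e, pre (push emb) noise ω i e = true → T ω e = true := by
    intro ω i e he
    simp only [pre, decide_eq_true_eq] at he
    obtain ⟨j, _, hj⟩ := he
    simp only [push, decide_eq_true_eq] at hj
    obtain ⟨e', he', hn⟩ := hj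
    simp only [hT, decide_eq_true_eq]
    refine ⟨j, e', he', ?_⟩
    simpa [noise] using hn
  -- values of the clique function along the chain
  have hlow : ∀ ω (i : ℕ), (toGraph (T ω)).CliqueFree k →
      F (pre (push emb) noise ω i) = false := by
    intro ω i hfr
    by_contra hcon
    rw [Bool.not_eq_false, hclq] at hcon
    exact hcon (hfr.anti (toGraph_mono (hPT ω i)))
  have hhigh : ∀ (x : Edge V → Bool) (i : Fin (q * q)) (U : Fin k → Fin w),
      F (join x (push emb i (plant U))) = true := by
    intro x i U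
    rw [hclq]
    intro hfr
    have hinjU : Function.Injective (fun a : Fin k => φ i (a, U a)) := by
      intro a b hab
      have := hφ i hab
      exact congrArg Prod.fst this
    apply hfr (Finset.univ.image (fun a : Fin k => φ i (a, U a)))
    rw [SimpleGraph.isNClique_iff]
    constructor
    · intro u hu v hv huv
      simp only [Finset.coe_image, Finset.coe_univ, Set.image_univ, Set.mem_range] at hu hv
      obtain ⟨a, rfl⟩ := hu
      obtain ⟨b, rfl⟩ := hv
      have hab : a ≠ b := fun h => huv (by rw [h])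
      have hab' : ((a, U a) : Blk k w) ≠ (b, U b) := fun h => hab (congrArg Prod.fst h)
      obtain ⟨e, he, hee⟩ := hemb i _ _ hab'
      refine ⟨e, ?_, hee⟩
      have : push emb i (plant U) e = true := by
        simp only [push, decide_eq_true_eq]
        refine ⟨_, he, ?_⟩
        simp only [plant, decide_eq_true_eq]
        exact ⟨a, b, hab, rfl⟩
      simp [join, this]
    · rw [Finset.card_image_of_injective _ hinjU]
      simp
  -- lower bound for the sum over the levels
  have hlower : ((q * q : ℕ) : ℝ) * (1 / 2) ≤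
      ∑ i : Fin (q * q), pr (fun z : (Fin (q * q) → Smp k w N) × (Fin k → Fin w) =>
        ∃ p ∈ H, 𝒢 p (pre (push emb) noise z.1 i) = false ∧
          𝒢 p (join (pre (push emb) noise z.1 i) (push emb i (plant z.2))) = true) := by
    have hone : ∀ i : Fin (q * q), (1 / 2 : ℝ) ≤
        pr (fun z : (Fin (q * q) → Smp k w N) × (Fin k → Fin w) =>
        ∃ p ∈ H, 𝒢 p (pre (push emb) noise z.1 i) = false ∧
          𝒢 p (join (pre (push emb) noise z.1 i) (push emb i (plant z.2))) = true) := by
      intro i
      have e1 : pr (fun z : (Fin (q * q) → Smp k w N) × (Fin k → Fin w) =>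
          (toGraph (T z.1)).CliqueFree k) =
          pr (fun ω : Fin (q * q) → Smp k w N => (toGraph (T ω)).CliqueFree k) := by
        unfold pr
        rw [ex_prod (fun (ω : Fin (q * q) → Smp k w N) (_ : Fin k → Fin w) =>
          if (toGraph (T ω)).CliqueFree k then (1:ℝ) else 0)]
        congr 1
        funext ω
        rw [ex_const]
      have e2 : (1 / 2 : ℝ) ≤
          pr (fun ω : Fin (q * q) → Smp k w N => (toGraph (T ω)).CliqueFree k) := by
        have h := pr_compl (fun ω : Fin (q * q) → Smp k w N => ¬ (toGraph (T ω)).CliqueFree k)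
        have h' : pr (fun ω : Fin (q * q) → Smp k w N => ¬ ¬ (toGraph (T ω)).CliqueFree k) =
            pr (fun ω : Fin (q * q) → Smp k w N => (toGraph (T ω)).CliqueFree k) :=
          pr_congr (fun ω => not_not)
        rw [h'] at h
        rw [h]
        have := hfree
        linarith
      rw [← e1] at e2
      refine e2.trans (pr_mono ?_)
      rintro ⟨ω, U⟩ hfr
      have hne : F (pre (push emb) noise ω i) ≠
          F (join (pre (push emb) noise ω i) (push emb i (plant U))) := by
        rw [hlow ω i hfr, hhigh]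
        simp
      obtain ⟨p, hp, hpd⟩ := hdiff _ _ hne
      refine ⟨p, hp, ?_⟩
      obtain ⟨L', hL', hsrc⟩ := h𝒢 p
      have hm := circuit_mono hL' rfl _ hsrc (pre (push emb) noise ω i)
        (join (pre (push emb) noise ω i) (push emb i (plant U)))
        (fun e he => by simp [join, he])
      have ha : 𝒢 p (pre (push emb) noise ω i) = false := by
        by_contra hcon
        rw [Bool.not_eq_false] at hcon
        exact hpd (hcon.trans (hm hcon).symm)
      refine ⟨ha, ?_⟩
      by_contra hcon
      rw [Bool.not_eq_true] at hcon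
      exact hpd (ha.trans hcon.symm)
    calc ((q * q : ℕ) : ℝ) * (1 / 2) = ∑ _i : Fin (q * q), (1 / 2 : ℝ) := by
          rw [Finset.sum_const, Finset.card_univ, Fintype.card_fin, nsmul_eq_mul]
      _ ≤ _ := Finset.sum_le_sum (fun i _ => hone i)
  -- upper bound
  have hupper : ∑ i : Fin (q * q), pr (fun z : (Fin (q * q) → Smp k w N) × (Fin k → Fin w) =>
        ∃ p ∈ H, 𝒢 p (pre (push emb) noise z.1 i) = false ∧
          𝒢 p (join (pre (push emb) noise z.1 i) (push emb i (plant z.2))) = true) ≤
      (M : ℝ) * (3 + ((q * q : ℕ) : ℝ) * δ) := by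
    calc _ ≤ ∑ i : Fin (q * q), ∑ p ∈ H,
          pr (fun z : (Fin (q * q) → Smp k w N) × (Fin k → Fin w) =>
            𝒢 p (pre (push emb) noise z.1 i) = false ∧
            𝒢 p (join (pre (push emb) noise z.1 i) (push emb i (plant z.2))) = true) :=
          Finset.sum_le_sum (fun i _ => pr_exists_le H _)
      _ = ∑ p ∈ H, ∑ i : Fin (q * q),
          pr (fun z : (Fin (q * q) → Smp k w N) × (Fin k → Fin w) =>
            𝒢 p (pre (push emb) noise z.1 i) = false ∧
            𝒢 p (join (pre (push emb) noise z.1 i) (push emb i (plant z.2))) = true) :=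
          Finset.sum_comm
      _ ≤ ∑ p ∈ H, (3 + ((q * q : ℕ) : ℝ) * δ) := Finset.sum_le_sum (fun p _ => hchain p)
      _ = (H.card : ℝ) * (3 + ((q * q : ℕ) : ℝ) * δ) := by
          rw [Finset.sum_const, nsmul_eq_mul]
      _ ≤ (M : ℝ) * (3 + ((q * q : ℕ) : ℝ) * δ) := by
          apply mul_le_mul_of_nonneg_right
          · exact_mod_cast hcard
          · positivity
  have hδ1 : ((q * q : ℕ) : ℝ) * δ ≤ 1 := by
    have h6' : (2 : ℝ) * t * (q : ℝ) ^ 2 ≤ 2 ^ l := by exact_mod_cast h6
    rw [hδ]
    have hpow : (0:ℝ) < 2 ^ l := by positivity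
    have : ((q * q : ℕ) : ℝ) * (t * (2 * (1 / 2 : ℝ) ^ l)) =
        (2 * t * (q : ℝ) ^ 2) / 2 ^ l := by
      push_cast
      rw [one_div, inv_pow]
      field_simp
    rw [this, div_le_one hpow]
    exact h6'
  have h7' : (8 : ℝ) * M < (q : ℝ) ^ 2 := by exact_mod_cast h7
  have hfin := hlower.trans hupper
  have hb : (M : ℝ) * (3 + ((q * q : ℕ) : ℝ) * δ) ≤ (M : ℝ) * 4 := by
    apply mul_le_mul_of_nonneg_left _ (by positivity)
    linarith
  have hc : ((q * q : ℕ) : ℝ) * (1 / 2) ≤ (M : ℝ) * 4 := hfin.trans hb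
  push_cast at hc
  nlinarith

end Pool.Agent.H7N
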