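import Mathlib

/-!
JOB NEG-SUN. The Erdos-Rado sunflower lemma.

Proof (induction on `j`, for all `𝓕`). j = 0: all members are empty, so 𝓕.card <= 1 = (0*m)^0.
j+1: if m = 0 take 𝓢 = ∅. Let 𝓓 be a pairwise disjoint subfamily of 𝓕 of maximal cardinality
(`Finset.exists_max_image` over 𝓕.powerset.filter). If 𝓓.card >= m, take m members of it
(`Finset.exists_subset_card_eq`) and Y = ∅ (all members are nonempty). Otherwise the union D of the
members of 𝓓 has at most (m-1)(j+1) elements and meets every member of 𝓕 (maximality), so some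
x in D lies in at least 𝓕.card / ((m-1)(j+1)) > ((j+1) m)^j >= (j m)^j members S of 𝓕. Apply the
induction hypothesis to the family {S.erase x} (`erase` is injective on sets containing x) and put x
back in Y and in the members.
-/

namespace Pool.Agent.H7N

open Finset in
/-- A maximal disjoint subfamily. -/
lemma exists_max_disjoint {B : Type*} [DecidableEq B] (𝓕 : Finset (Finset B))
    (hne : ∀ S ∈ 𝓕, S.Nonempty) :
    ∃ 𝓓 ⊆ 𝓕, (∀ S ∈ 𝓓, ∀ T ∈ 𝓓, S ≠ T → Disjoint S T) ∧
      ∀ S ∈ 𝓕, ∃ x ∈ 𝓓.biUnion id, x ∈ S := by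
  classical
  obtain ⟨𝓓, h𝓓, hmax⟩ := exists_max_image
    (𝓕.powerset.filter (fun 𝓓 => ∀ S ∈ 𝓓, ∀ T ∈ 𝓓, S ≠ T → Disjoint S T)) card
    ⟨∅, by simp⟩
  rw [mem_filter, mem_powerset] at h𝓓
  refine ⟨𝓓, h𝓓.1, h𝓓.2, ?_⟩
  intro S hS
  by_contra hcon
  push Not at hcon
  have hSD : S ∉ 𝓓 := by
    intro h
    obtain ⟨x, hx⟩ := hne S hS
    exact hcon x (mem_biUnion.2 ⟨S, h, hx⟩) hx
  have hdis : ∀ T ∈ 𝓓, Disjoint S T := by
    intro T hT
    rw [disjoint_left]
    intro x hxS hxT
    exact hcon x (mem_biUnion.2 ⟨T, hT, hxT⟩) hxS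
  have := hmax (insert S 𝓓) (by
    rw [mem_filter, mem_powerset]
    refine ⟨insert_subset hS h𝓓.1, ?_⟩
    intro U hU T hT hUT
    rcases mem_insert.1 hU with h1 | h1 <;> rcases mem_insert.1 hT with h2 | h2
    · exact absurd (h1.trans h2.symm) hUT
    · rw [h1]; exact hdis T h2
    · rw [h2]; exact (hdis U h1).symm
    · exact h𝓓.2 U h1 T h2 hUT)
  rw [card_insert_of_notMem hSD] at this
  omega

theorem sunflower {B : Type*} [DecidableEq B] (m : ℕ) : ∀ (j : ℕ) (𝓕 : Finset (Finset B)),
    (∀ S ∈ 𝓕, S.card = j) → (j * m) ^ j < 𝓕.card →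
    ∃ (Y : Finset B) (𝓢 : Finset (Finset B)), 𝓢 ⊆ 𝓕 ∧ 𝓢.card = m ∧ (∀ S ∈ 𝓢, Y ⊂ S) ∧
      ∀ S ∈ 𝓢, ∀ T ∈ 𝓢, S ≠ T → S ∩ T = Y := by
  classical
  intro j
  induction j with
  | zero =>
    intro 𝓕 hc hcard
    exfalso
    have h1 : 𝓕 ⊆ {∅} := by
      intro S hS
      rw [Finset.mem_singleton]
      exact Finset.card_eq_zero.1 (hc S hS)
    have h2 := Finset.card_le_card h1
    simp at hcard h2
    omega
  | succ j ih =>
    intro 𝓕 hc hcard
    rcases Nat.eq_zero_or_pos m with rfl | hm
    · exact ⟨∅, ∅, by simp, by simp, by simp, by simp⟩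
    have hne : ∀ S ∈ 𝓕, S.Nonempty := by
      intro S hS
      rw [← Finset.card_pos, hc S hS]
      omega
    obtain ⟨𝓓, h𝓓, hdis, hmeet⟩ := exists_max_disjoint 𝓕 hne
    by_cases hD : m ≤ 𝓓.card
    · obtain ⟨𝓢, h𝓢, hcard𝓢⟩ := Finset.exists_subset_card_eq hD
      refine ⟨∅, 𝓢, h𝓢.trans h𝓓, hcard𝓢, ?_, ?_⟩
      · intro S hS
        exact Finset.empty_ssubset.2 (hne S (h𝓓 (h𝓢 hS)))
      · intro S hS T hT hST
        exact Finset.disjoint_iff_inter_eq_empty.1 (hdis S (h𝓢 hS) T (h𝓢 hT) hST)
    · push Not at hD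
      set D := 𝓓.biUnion id with hDdef
      have hDcard : D.card ≤ (m - 1) * (j + 1) := by
        calc D.card ≤ 𝓓.card * (j + 1) := by
              refine Finset.card_biUnion_le_card_mul _ _ _ (fun S hS => ?_)
              exact (hc S (h𝓓 hS)).le
          _ ≤ (m - 1) * (j + 1) := Nat.mul_le_mul_right _ (by omega)
      have hx : ∃ x ∈ D, (j * m) ^ j < (𝓕.filter (fun S => x ∈ S)).card := by
        by_contra hcon
        push Not at hcon
        have hsub : 𝓕 ⊆ D.biUnion (fun x => 𝓕.filter (fun S => x ∈ S)) := by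
          intro S hS
          obtain ⟨x, hx, hxS⟩ := hmeet S hS
          exact Finset.mem_biUnion.2 ⟨x, hx, Finset.mem_filter.2 ⟨hS, hxS⟩⟩
        have h1 : 𝓕.card ≤ D.card * (j * m) ^ j :=
          (Finset.card_le_card hsub).trans
            (Finset.card_biUnion_le_card_mul _ _ _ (fun x hx => hcon x hx))
        have h2 : D.card * (j * m) ^ j ≤ ((j + 1) * m) ^ (j + 1) := by
          calc D.card * (j * m) ^ j ≤ ((m - 1) * (j + 1)) * (j * m) ^ j :=
                Nat.mul_le_mul_right _ hDcard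
            _ ≤ ((j + 1) * m) * ((j + 1) * m) ^ j := by
                apply Nat.mul_le_mul
                · rw [Nat.mul_comm (m - 1)]
                  exact Nat.mul_le_mul_left _ (Nat.sub_le _ _)
                · exact Nat.pow_le_pow_left (Nat.mul_le_mul_right _ (Nat.le_succ _)) _
            _ = ((j + 1) * m) ^ (j + 1) := by ring
        omega
      obtain ⟨x, _, hx⟩ := hx
      set 𝓕x := 𝓕.filter (fun S => x ∈ S) with h𝓕x
      have hinj : Set.InjOn (fun S : Finset B => S.erase x) 𝓕x := by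
        intro S hS T hT hST
        have hS' : x ∈ S := (Finset.mem_filter.1 hS).2
        have hT' : x ∈ T := (Finset.mem_filter.1 hT).2
        have hST' : S.erase x = T.erase x := hST
        rw [← Finset.insert_erase hS', ← Finset.insert_erase hT', hST']
      obtain ⟨Y, 𝓢, h𝓢, hcard𝓢, hY, hinter⟩ := ih (𝓕x.image (fun S => S.erase x))
        (by
          intro S hS
          obtain ⟨T, hT, rfl⟩ := Finset.mem_image.1 hS
          rw [Finset.mem_filter] at hT
          show (T.erase x).card = j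
          rw [Finset.card_erase_of_mem hT.2, hc T hT.1]
          rfl)
        (by rw [Finset.card_image_of_injOn hinj]; exact hx)
      have hnx : ∀ S ∈ 𝓢, x ∉ S := by
        intro S hS
        obtain ⟨T, _, rfl⟩ := Finset.mem_image.1 (h𝓢 hS)
        exact Finset.notMem_erase x T
      have hins : ∀ S ∈ 𝓢, insert x S ∈ 𝓕 := by
        intro S hS
        obtain ⟨T, hT, rfl⟩ := Finset.mem_image.1 (h𝓢 hS)
        rw [Finset.mem_filter] at hT
        show insert x (T.erase x) ∈ 𝓕
        rw [Finset.insert_erase hT.2]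
        exact hT.1
      refine ⟨insert x Y, 𝓢.image (fun S => insert x S), ?_, ?_, ?_, ?_⟩
      · intro S hS
        obtain ⟨T, hT, rfl⟩ := Finset.mem_image.1 hS
        exact hins T hT
      · rw [Finset.card_image_of_injOn, hcard𝓢]
        intro S hS T hT hST
        have hST' : insert x S = insert x T := hST
        rw [← Finset.erase_insert (hnx S hS), ← Finset.erase_insert (hnx T hT), hST']
      · intro S hS
        obtain ⟨T, hT, rfl⟩ := Finset.mem_image.1 hS
        have h1 := hY T hT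
        refine Finset.ssubset_iff_subset_ne.2 ⟨Finset.insert_subset_insert x h1.1, ?_⟩
        intro h2
        have h3 : x ∉ Y := fun h => hnx T hT (h1.1 h)
        have h4 : Y = T := by
          rw [← Finset.erase_insert h3, ← Finset.erase_insert (hnx T hT)]
          rw [h2]
        exact h1.2 (h4 ▸ Finset.Subset.refl _)
      · intro S hS T hT hST
        obtain ⟨S', hS', rfl⟩ := Finset.mem_image.1 hS
        obtain ⟨T', hT', rfl⟩ := Finset.mem_image.1 hT
        have hne' : S' ≠ T' := by
          rintro rfl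
          exact hST rfl
        show insert x S' ∩ insert x T' = insert x Y
        rw [← hinter S' hS' T' hT' hne']
        ext y
        simp only [Finset.mem_inter, Finset.mem_insert]
        tauto

end Pool.Agent.H7N
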