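import Pool.Agent.H7N.BDefs
import Pool.Agent.H7N.Sun

/-!
JOB NEG-MIN. Closed families have few minimal members (definitions in BDefs.lean).

* `pr_not_clique`: if ¬ Kc S (join (noise ω) (fill T)) then some pair a ≠ b in S has ω s(a,b) = 0.
  There are at most l(l-1)/2 <= N/2 unordered pairs, each vanishes with probability 1/N (`pr_coord`);
  union bound with `pr_exists_le` over the finset of the pairs s(a,b), a ≠ b in S (its card is
  S.card choose 2, e.g. image of S.offDiag, or `Sym2` lemmas).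
* `card_minimal_le`: otherwise (j m)^j <= (l m)^j < card; `sunflower` gives Y and m sets S ∈ 𝓢, Y ⊂ S,
  S ∩ T = Y. Put D S = the set of e = s(a,b) with a, b ∈ S, a ≠ b, not both in Y. The sets D S, S ∈ 𝓢,
  are pairwise disjoint; the event ¬ Kc S (join (noise ω) (fill Y)) depends only on D S and has
  probability <= 1/2 (`pr_not_clique`). By `pr_forall_le`, pr (¬ Acc 𝓐 (join (noise ω) (fill Y))) <=
  pr (∀ S ∈ 𝓢, ¬ Kc S (join (noise ω) (fill Y))) <= (1/2)^m, so Y ∈ 𝓐 as 𝓐 is closed. This contradicts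
  the minimality of any S ∈ 𝓢. (m = 0 : then 𝓢 = ∅ gives pr <= 1 = (1/2)^0; Y must be small: for m = 0
  use that (1/2)^0 = 1 forces every small set, in particular ∅, into 𝓐, so that the only minimal member
  is ∅: card <= 1 if j = 0, card = 0 if j > 0.)
-/

namespace Pool.Agent.H7N

open Finset Pool.Agent.H24

variable {k w N l m : ℕ}

/-- the minimal members of size `j` -/
noncomputable def minim (𝓐 : Finset (Finset (Blk k w))) (j : ℕ) : Finset (Finset (Blk k w)) := by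
  classical
  exact 𝓐.filter (fun S => S.card = j ∧ ∀ T ∈ 𝓐, T ⊆ S → T = S)

theorem mem_minim {𝓐 : Finset (Finset (Blk k w))} {j : ℕ} {S : Finset (Blk k w)} :
    S ∈ minim 𝓐 j ↔ S ∈ 𝓐 ∧ S.card = j ∧ ∀ T ∈ 𝓐, T ⊆ S → T = S := by
  classical
  unfold minim
  rw [Finset.mem_filter]

theorem exists_minim {𝓐 : Finset (Finset (Blk k w))} {S : Finset (Blk k w)} (hS : S ∈ 𝓐) :
    ∃ T ⊆ S, T ∈ minim 𝓐 T.card := by
  classical
  obtain ⟨T, hT, hmin⟩ := Finset.exists_min_image (𝓐.filter (fun T => T ⊆ S)) Finset.card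
    ⟨S, Finset.mem_filter.2 ⟨hS, subset_rfl⟩⟩
  rw [Finset.mem_filter] at hT
  refine ⟨T, hT.2, mem_minim.2 ⟨hT.1, rfl, fun T' hT' hsub => ?_⟩⟩
  exact Finset.eq_of_subset_of_card_le hsub
    (hmin T' (Finset.mem_filter.2 ⟨hT', hsub.trans hT.2⟩))

theorem pr_not_clique (hl : 1 ≤ l) (hN : l ^ 2 ≤ N) {S : Finset (Blk k w)} (hS : S.card ≤ l)
    (T : Finset (Blk k w)) :
    pr (fun ω : Smp k w N => ¬ Kc S (join (noise ω) (fill T))) ≤ 1 / 2 := by
  classical
  have hN0 : 0 < N := lt_of_lt_of_le (pow_pos hl 2) hN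
  let P : Finset (Sym2 (Blk k w)) := S.offDiag.image (fun p => s(p.1, p.2))
  have hcard : P.card = S.card.choose 2 := Sym2.card_image_offDiag S
  have h1 : pr (fun ω : Smp k w N => ¬ Kc S (join (noise ω) (fill T))) ≤
      pr (fun ω : Smp k w N => ∃ e ∈ P, (ω e).val = 0) := by
    apply pr_mono
    intro ω hω
    unfold Kc at hω
    push Not at hω
    obtain ⟨a, ha, b, hb, hab, h⟩ := hω
    refine ⟨s(a, b), Finset.mem_image.2 ⟨(a, b), Finset.mem_offDiag.2 ⟨ha, hb, hab⟩, rfl⟩, ?_⟩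
    by_contra h0
    apply h
    simp [join, noise, h0]
  refine h1.trans ((pr_exists_le P (fun e (ω : Smp k w N) => (ω e).val = 0)).trans ?_)
  have h2 : ∀ e ∈ P, pr (fun ω : Smp k w N => (ω e).val = 0) = 1 / (N : ℝ) :=
    fun e _ => pr_coord hN0 e
  rw [Finset.sum_congr rfl h2, Finset.sum_const, nsmul_eq_mul, hcard]
  have h3 : (S.card.choose 2 : ℝ) ≤ (N : ℝ) / 2 := by
    have h4 : S.card.choose 2 ≤ l.choose 2 := Nat.choose_le_choose 2 hS
    have h5 : (l.choose 2 : ℝ) = l * (l - 1) / 2 := Nat.cast_choose_two ℝ l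
    have h6 : (S.card.choose 2 : ℝ) ≤ (l.choose 2 : ℝ) := by exact_mod_cast h4
    have h7 : (l : ℝ) ^ 2 ≤ N := by exact_mod_cast hN
    have h8 : (0 : ℝ) ≤ l := by positivity
    rw [h5] at h6
    nlinarith
  have hNr : (0 : ℝ) < N := by exact_mod_cast hN0
  rw [mul_one_div, div_le_iff₀ hNr]
  linarith

theorem card_minimal_le (hl : 1 ≤ l) (hN : l ^ 2 ≤ N) {𝓐 : Finset (Finset (Blk k w))}
    (h : Closed l m N 𝓐) {j : ℕ} (hj : j ≤ l) : (minim 𝓐 j).card ≤ (l * m) ^ j := by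
  classical
  have hN0 : 0 < N := lt_of_lt_of_le (pow_pos hl 2) hN
  have : NeZero N := ⟨hN0.ne'⟩
  -- the case `j = 0`
  rcases Nat.eq_zero_or_pos j with rfl | hj0
  · rw [pow_zero, Finset.card_le_one]
    intro S hS T hT
    rw [Finset.card_eq_zero.1 (mem_minim.1 hS).2.1, Finset.card_eq_zero.1 (mem_minim.1 hT).2.1]
  -- the case `m = 0`
  rcases Nat.eq_zero_or_pos m with rfl | hm0
  · have hempty : (∅ : Finset (Blk k w)) ∈ 𝓐 := by
      apply h.2 ∅ (by simp)
      rw [pow_zero]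
      exact pr_le_one _
    have : minim 𝓐 j = ∅ := by
      rw [Finset.eq_empty_iff_forall_notMem]
      intro S hS
      obtain ⟨_, hc, hmin⟩ := mem_minim.1 hS
      have := hmin ∅ hempty (Finset.empty_subset S)
      rw [← this] at hc
      simp at hc
      omega
    rw [this]
    simp
  by_contra hcon
  rw [not_le] at hcon
  have h1 : (j * m) ^ j < (minim 𝓐 j).card :=
    lt_of_le_of_lt (Nat.pow_le_pow_left (Nat.mul_le_mul_right m hj) j) hcon
  obtain ⟨Y, 𝓢, hsub, hcard, hY, hint⟩ := sunflower m j (minim 𝓐 j)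
    (fun S hS => (mem_minim.1 hS).2.1) h1
  obtain ⟨S₀, hS₀⟩ : 𝓢.Nonempty := by
    rw [← Finset.card_pos, hcard]
    exact hm0
  have hYc : Y.card ≤ l := by
    have := Finset.card_lt_card (hY S₀ hS₀)
    have h2 := (mem_minim.1 (hsub hS₀)).2.1
    omega
  let D : Finset (Blk k w) → Finset (Sym2 (Blk k w)) := fun S =>
    (S.offDiag.filter (fun p => ¬ (p.1 ∈ Y ∧ p.2 ∈ Y))).image (fun p => s(p.1, p.2))
  have hmemD : ∀ S e, e ∈ D S ↔ ∃ a ∈ S, ∃ b ∈ S, a ≠ b ∧ ¬ (a ∈ Y ∧ b ∈ Y) ∧ s(a, b) = e := by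
    intro S e
    simp only [D, Finset.mem_image, Finset.mem_filter, Finset.mem_offDiag]
    constructor
    · rintro ⟨p, ⟨⟨ha, hb, hab⟩, hn⟩, he⟩
      exact ⟨p.1, ha, p.2, hb, hab, hn, he⟩
    · rintro ⟨a, ha, b, hb, hab, hn, he⟩
      exact ⟨(a, b), ⟨⟨ha, hb, hab⟩, hn⟩, he⟩
  have key : pr (fun ω : Smp k w N => ∀ S ∈ 𝓢, ¬ Kc S (join (noise ω) (fill Y))) ≤
      (1 / 2 : ℝ) ^ 𝓢.card := by
    apply pr_forall_le (Y := Fin N) 𝓢 D
      (fun S (ω : Smp k w N) => ¬ Kc S (join (noise ω) (fill Y)))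
    · intro S hS T hT hST
      rw [Finset.disjoint_left]
      intro e he he'
      obtain ⟨a, ha, b, hb, hab, hn, he1⟩ := (hmemD S e).1 he
      obtain ⟨a', ha', b', hb', _, _, he2⟩ := (hmemD T e).1 he'
      rw [← he1] at he2
      apply hn
      have hY' := hint S hS T hT hST
      rcases Sym2.eq_iff.1 he2 with ⟨rfl, rfl⟩ | ⟨rfl, rfl⟩
      · rw [← hY']
        exact ⟨Finset.mem_inter.2 ⟨ha, ha'⟩, Finset.mem_inter.2 ⟨hb, hb'⟩⟩
      · rw [← hY']
        exact ⟨Finset.mem_inter.2 ⟨ha, hb'⟩, Finset.mem_inter.2 ⟨hb, ha'⟩⟩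
    · intro S _
      have aux : ∀ ω ω' : Smp k w N, (∀ e ∈ D S, ω e = ω' e) →
          Kc S (join (noise ω) (fill Y)) → Kc S (join (noise ω') (fill Y)) := by
        intro ω ω' hω hK a ha b hb hab
        by_cases hab' : a ∈ Y ∧ b ∈ Y
        · have : fill Y s(a, b) = true := kc_fill Y a hab'.1 b hab'.2 hab
          simp [join, this]
        · have h2 := hω s(a, b) ((hmemD S _).2 ⟨a, ha, b, hb, hab, hab', rfl⟩)
          have h3 := hK a ha b hb hab
          simp only [join, noise] at h3 ⊢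
          rw [← h2]
          exact h3
      intro ω ω' hω
      exact not_congr ⟨aux ω ω' hω, aux ω' ω (fun e he => (hω e he).symm)⟩
    · intro S hS
      apply pr_not_clique hl hN
      rw [(mem_minim.1 (hsub hS)).2.1]
      exact hj
  have hYA : Y ∈ 𝓐 := by
    apply h.2 Y hYc
    rw [← hcard]
    refine le_trans (pr_mono ?_) key
    intro ω hω S hS hK
    exact hω ⟨S, (mem_minim.1 (hsub hS)).1, hK⟩
  have h4 := (mem_minim.1 (hsub hS₀)).2.2 Y hYA (hY S₀ hS₀).subset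
  exact (hY S₀ hS₀).ne h4

end Pool.Agent.H7N
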