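import Pool.Agent.H64.Cook.Defs
import Pool.Agent.H64.Cook.PTX
import Pool.Agent.PPS.PS
import Pool.Agent.PPS.Bits
import Pool.Agent.PPS.Bridge

/-!
`NP` is contained in `PSPACE`: go through all the words `y` of length `q |x|` with a binary counter
with `q |x| + 1` bits; the loop ends when the last bit becomes one.
-/

namespace Pool.Agent.H7N

open Pool.Agent.PPS Pool.Agent.H64.Cook

theorem PT.pairW' {m : Bool} {α : Type} [Rep α] {x y : α → List Bool} (hx : PT m x)
    (hy : PT m y) : PT m (fun a => pairW (x a) (y a)) := by
  unfold pairW
  have h1 : PT m (fun a => (x a).flatMap (fun b => [true, b])) :=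
    H64.Cook.PT.flatMap' (f := fun z : α × Bool => [true, z.2]) hx (by fun_prop)
  exact PT.append' h1 (by fun_prop)

theorem size_words_le (l : List Bool) : size l ≤ 4 * l.length + 1 := size_le_length l

theorem size_bool_le (b : Bool) : size b ≤ 3 := by
  cases b
  · exact le_of_eq_of_le (by rfl : size false = 1) (by omega)
  · exact le_of_eq_of_le (by rfl : size true = 3) (by omega)

/-- The search. -/
theorem PT.search {v : List Bool × List Bool → Bool} (hv : PT false v) (q : Polynomial ℕ) :
    PT false (fun x : List Bool => decide (∃ k < 2 ^ q.eval x.length,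
      v (x, bits (q.eval x.length) k) = true)) := by
  let s : List Bool × (List Bool × Bool) → List Bool × Bool := fun z =>
    (inc z.2.1, z.2.2 || v (z.1, z.2.1.take (q.eval z.1.length)))
  have hq : PT false (fun z : List Bool × (List Bool × Bool) => q.eval z.1.length) :=
    PT.polyEval (by fun_prop) q
  have hs : PT false s := by
    refine PT.prodMk (by fun_prop) (PT.or' (by fun_prop) ?_)
    exact hv.comp' (PT.prodMk (by fun_prop) (PT.take' hq (by fun_prop)))
  have hit : ∀ (k : ℕ) (x : List Bool), k ≤ 2 ^ q.eval x.length →
      (fun y => s (x, y))^[k] (List.replicate (q.eval x.length + 1) false, false) =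
      (bits (q.eval x.length + 1) k,
        decide (∃ j < k, v (x, bits (q.eval x.length) j) = true)) := by
    intro k x
    induction k with
    | zero =>
      intro _
      have h0 : bits (q.eval x.length + 1) 0 = List.replicate (q.eval x.length + 1) false :=
        bits_eq_replicate.2 (by simp)
      rw [Function.iterate_zero, h0]
      simp
    | succ k ih =>
      intro hk
      rw [Function.iterate_succ_apply', ih (by omega)]
      simp only [s]
      refine Prod.ext ?_ ?_
      · exact inc_bits _ _
      · have h1 : (bits (q.eval x.length + 1) k).take (q.eval x.length) =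
            bits (q.eval x.length) k := by
          rw [bits_add]
          exact List.take_left' (length_bits _ _)
        rw [h1]
        rw [Bool.eq_iff_iff]
        simp only [Bool.or_eq_true, decide_eq_true_eq]
        constructor
        · rintro (⟨j, hj, h⟩ | h)
          · exact ⟨j, by omega, h⟩
          · exact ⟨k, by omega, h⟩
        · rintro ⟨j, hj, h⟩
          rcases Nat.lt_succ_iff_lt_or_eq.1 hj with hj | rfl
          · exact Or.inl ⟨j, hj, h⟩
          · exact Or.inr h
  have key := PT.loop (m := false) (α := List Bool)
    (ini := fun x => (List.replicate (q.eval x.length + 1) false, false)) (s := s)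
    (c := fun z => !(bitAt z.2.1 (q.eval z.1.length))) (fun x => 2 ^ q.eval x.length)
    (PT.prodMk (PT.replicate' (by exact PT.succ' (PT.polyEval (by fun_prop) q)) (by fun_prop))
      (by fun_prop)) hs (PT.not' (PT.bitAt' (by fun_prop) hq)) (4 * q + 10) (by
      intro x k hk
      have := hit k x hk
      rw [this, size_pair]
      have h1 := size_words_le (bits (q.eval x.length + 1) k)
      rw [length_bits] at h1
      have h2 := size_bool_le (decide (∃ j < k, v (x, bits (q.eval x.length) j) = true))
      have h3 := polyMono q (length_le_size x)
      simp only [Polynomial.eval_add, Polynomial.eval_mul, Polynomial.eval_ofNat]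
      omega) (by
      intro x k hk
      have := hit k x hk.le
      rw [this]
      simp only [bitAt_bits, Nat.testBit_lt_two_pow hk]
      simp) (by
      intro x
      have := hit (2 ^ q.eval x.length) x le_rfl
      rw [this]
      simp only [bitAt_bits, Nat.testBit_two_pow_self]
      simp) (by intro h; cases h)
  have h2 := (PT.snd (m := false)).comp key
  refine h2.of_eq (fun x => ?_)
  have := hit (2 ^ q.eval x.length) x le_rfl
  rw [this]

theorem NP_subset_PSPACE : Pool.Agent.H64.Cook.NP ⊆ Pool.Agent.PPS.PSPACE := by
  classical
  rintro L ⟨V, hV, q, hL⟩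
  rw [mem_P_iff] at hV
  rw [mem_PSPACE_iff]
  have hv : PT false (fun z : List Bool × List Bool => decide (pairW z.1 z.2 ∈ V)) := by
    have h1 : PT false (fun x => decide (x ∈ V)) := hV.of_true
    exact h1.comp' (PT.pairW' (by fun_prop) (by fun_prop))
  refine (PT.search hv q).of_eq (fun x => ?_)
  refine decide_eq_decide.2 ?_
  rw [hL]
  refine Iff.symm ?_
  constructor
  · rintro ⟨k, -, h⟩
    exact ⟨bits (q.eval x.length) k, length_bits _ _, by simpa using h⟩
  · rintro ⟨y, hy, h⟩
    refine ⟨val y, ?_, ?_⟩
    · have := val_bits y.length (val y)
      rw [bits_val] at this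
      rw [this, hy]
      exact Nat.mod_lt _ (by positivity)
    · have := bits_val y
      rw [hy] at this
      rw [this]
      simpa using h

end Pool.Agent.H7N
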