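import Pool.Agent.H7N.Defs
import Pool.Agent.H64.Cook.Defs
import Pool.Agent.H64.Cook.Verifier
import Pool.Agent.PPS.Lists
import Pool.Agent.PPS.Bridge

/-!
The language CLIQUE is in NP.

The certificate is the indicator of the clique, `V = sqrt |x|` bits. The verifier compares the number
of its ones with the number of `false` entries on the diagonal and checks all the pairs `i < j`.
-/

namespace Pool.Agent.H7N

open Pool.Agent.PPS Pool.Agent.H64.Cook

/-- The integer part of the square root, plus one. -/
def isq (n : ℕ) : ℕ := ((List.range (n + 1)).filter fun k => decide (k * k ≤ n)).length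

theorem isq_eq (n : ℕ) : isq n = Nat.sqrt n + 1 := by
  unfold isq
  have h1 : ((List.range (n + 1)).filter fun k => decide (k * k ≤ n)).toFinset =
      Finset.range (Nat.sqrt n + 1) := by
    ext k
    simp only [List.mem_toFinset, List.mem_filter, List.mem_range, decide_eq_true_eq,
      Finset.mem_range, Nat.lt_succ_iff]
    rw [← Nat.le_sqrt]
    constructor
    · rintro ⟨-, h⟩; exact h
    · intro h; exact ⟨h.trans (Nat.sqrt_le_self n), h⟩
  rw [← List.toFinset_card_of_nodup (List.nodup_range.filter _), h1, Finset.card_range]

section pt

variable {m : Bool} {α : Type} [Rep α]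

@[fun_prop]
theorem PT.isq' {n : α → ℕ} (hn : PT m n) : PT m (fun a => isq (n a)) := by
  unfold isq
  have h := H64.Cook.PT.filter' (m := m) (l := fun a => List.range (n a + 1))
    (f := fun z : α × ℕ => decide (z.2 * z.2 ≤ n z.1)) (by fun_prop) (by fun_prop)
  fun_prop

end pt

/-- The entry of the matrix with a given number of rows. -/
def ent (x : List Bool) (V i j : ℕ) : Bool := x.getD (i * V + j) false

/-- The verifier with a given number of vertices. -/
def chkV (x y : List Bool) (V : ℕ) : Bool :=
  decide (((List.range V).filter fun i => y.getD i false).length =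
    ((List.range V).filter fun i => !(ent x V i i)).length) &&
  ((List.range V).all fun i => (List.range V).all fun j =>
    !(y.getD i false) || (!(y.getD j false) || (!(decide (i < j)) || ent x V i j)))

theorem PT.chkV' : PT true (fun z : List Bool × List Bool =>
    chkV z.1 z.2 (isq z.1.length - 1)) := by
  unfold chkV ent
  have h1 : PT true (fun z : List Bool × List Bool =>
      ((List.range (isq z.1.length - 1)).filter fun i => z.2.getD i false)) :=
    H64.Cook.PT.filter' (m := true) (l := fun z : List Bool × List Bool =>
      List.range (isq z.1.length - 1))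
      (f := fun w : (List Bool × List Bool) × ℕ => w.1.2.getD w.2 false) (by fun_prop)
      (by fun_prop)
  have h2 : PT true (fun z : List Bool × List Bool =>
      ((List.range (isq z.1.length - 1)).filter fun i =>
        !(z.1.getD (i * (isq z.1.length - 1) + i) false))) :=
    H64.Cook.PT.filter' (m := true) (l := fun z : List Bool × List Bool =>
      List.range (isq z.1.length - 1))
      (f := fun w : (List Bool × List Bool) × ℕ =>
        !(w.1.1.getD (w.2 * (isq w.1.1.length - 1) + w.2) false)) (by fun_prop) (by fun_prop)
  have h3 : PT true (fun w : (List Bool × List Bool) × ℕ =>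
      (List.range (isq w.1.1.length - 1)).all fun j =>
        !(w.1.2.getD w.2 false) || (!(w.1.2.getD j false) || (!(decide (w.2 < j)) ||
          w.1.1.getD (w.2 * (isq w.1.1.length - 1) + j) false))) :=
    H64.Cook.PT.all' (m := true) (l := fun w : (List Bool × List Bool) × ℕ =>
      List.range (isq w.1.1.length - 1))
      (f := fun v : ((List Bool × List Bool) × ℕ) × ℕ =>
        !(v.1.1.2.getD v.1.2 false) || (!(v.1.1.2.getD v.2 false) || (!(decide (v.1.2 < v.2)) ||
          v.1.1.1.getD (v.1.2 * (isq v.1.1.1.length - 1) + v.2) false)))
      (by fun_prop) (by fun_prop)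
  have h4 := H64.Cook.PT.all' (m := true) (l := fun z : List Bool × List Bool =>
      List.range (isq z.1.length - 1)) (by fun_prop) h3
  exact PT.and' (PT.decideEq (PT.length' h1) (PT.length' h2)) h4

theorem cliqueLang_mem_NP : cliqueLang ∈ Pool.Agent.H64.Cook.NP := by
  refine mem_NP_of PT.chkV' (Polynomial.X + 1) ?_ ?_
  · rintro x ⟨S, h1, h2, h3⟩
    obtain ⟨V, hV⟩ : ∃ V, V = Nat.sqrt x.length := ⟨_, rfl⟩
    have hy : ∀ i < V, (List.ofFn fun i : Fin V => decide ((i : ℕ) ∈ S)).getD i false =
        decide (i ∈ S) := by
      intro i hi
      rw [List.getD_eq_getElem _ _ (by rw [List.length_ofFn]; exact hi), List.getElem_ofFn]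
    refine ⟨List.ofFn fun i : Fin V => decide ((i : ℕ) ∈ S), ?_, ?_⟩
    · simp only [List.length_ofFn, Polynomial.eval_add, Polynomial.eval_X, Polynomial.eval_one]
      have := Nat.sqrt_le_self x.length
      omega
    · have hV' : isq x.length - 1 = V := by rw [isq_eq, hV]; rfl
      simp only [hV', chkV, Bool.and_eq_true, decide_eq_true_eq, List.all_eq_true, List.mem_range]
      refine ⟨?_, ?_⟩
      · have e1 : ((List.range V).filter fun i =>
            (List.ofFn fun i : Fin V => decide ((i : ℕ) ∈ S)).getD i false).length = S.card := by
          rw [← List.toFinset_card_of_nodup (List.nodup_range.filter _)]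
          congr 1
          ext i
          simp only [List.mem_toFinset, List.mem_filter, List.mem_range]
          constructor
          · rintro ⟨hi, h⟩
            rw [hy i hi] at h
            simpa using h
          · intro h
            have hi : i < V := by rw [hV]; exact h1 i h
            exact ⟨hi, by rw [hy i hi]; simpa using h⟩
        have e2 : ((List.range V).filter fun i => !(ent x V i i)).length =
            ((Finset.range V).filter fun i => entry x i i = false).card := by
          rw [← List.toFinset_card_of_nodup (List.nodup_range.filter _)]
          congr 1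
          ext i
          simp only [List.mem_toFinset, List.mem_filter, List.mem_range, Finset.mem_filter,
            Finset.mem_range, entry, ent, hV, Bool.not_eq_true']
        rw [e1, e2, h2, hV]
      · intro i hi j hj
        rw [hy i hi, hy j hj]
        simp only [Bool.or_eq_true, Bool.not_eq_true', decide_eq_false_iff_not]
        by_cases hiS : i ∈ S
        · by_cases hjS : j ∈ S
          · by_cases hij : i < j
            · refine Or.inr (Or.inr (Or.inr ?_))
              have := h3 i hiS j hjS hij
              rw [entry, ← hV] at this
              exact this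
            · exact Or.inr (Or.inr (Or.inl hij))
          · exact Or.inr (Or.inl hjS)
        · exact Or.inl hiS
  · intro x y h
    obtain ⟨V, hV⟩ : ∃ V, V = Nat.sqrt x.length := ⟨_, rfl⟩
    have hV' : isq x.length - 1 = V := by rw [isq_eq, hV]; rfl
    simp only [hV', chkV, Bool.and_eq_true, decide_eq_true_eq, List.all_eq_true, List.mem_range]
      at h
    obtain ⟨h1, h2⟩ := h
    refine ⟨(Finset.range V).filter fun i => y.getD i false = true, ?_, ?_, ?_⟩
    · intro i hi
      rw [Finset.mem_filter, Finset.mem_range] at hi
      rw [← hV]
      exact hi.1
    · rw [← hV]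
      have e1 : ((List.range V).filter fun i => y.getD i false).length =
          ((Finset.range V).filter fun i => y.getD i false = true).card := by
        rw [← List.toFinset_card_of_nodup (List.nodup_range.filter _)]
        congr 1
        ext i
        simp only [List.mem_toFinset, List.mem_filter, List.mem_range, Finset.mem_filter,
          Finset.mem_range]
      have e2 : ((List.range V).filter fun i => !(ent x V i i)).length =
          ((Finset.range V).filter fun i => entry x i i = false).card := by
        rw [← List.toFinset_card_of_nodup (List.nodup_range.filter _)]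
        congr 1
        ext i
        simp only [List.mem_toFinset, List.mem_filter, List.mem_range, Finset.mem_filter,
          Finset.mem_range, entry, ent, hV, Bool.not_eq_true']
      rw [← e1, ← e2]
      exact h1
    · intro i hi j hj hij
      rw [Finset.mem_filter, Finset.mem_range] at hi hj
      have := h2 i hi.1 j hj.1
      rw [hi.2, hj.2] at this
      simp only [Bool.not_true, Bool.false_or, Bool.or_eq_true, Bool.not_eq_true',
        decide_eq_false_iff_not] at this
      rcases this with h | h
      · exact absurd hij h
      · rw [entry, ← hV]
        exact h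

/-- The language CLIQUE is monotone. -/
theorem cliqueLang_mono {x y : List Bool} (h : List.Forall₂ (· ≤ ·) x y)
    (hx : x ∈ cliqueLang) : y ∈ cliqueLang := by
  have hl : x.length = y.length := h.length_eq
  have hxy : ∀ i, x.getD i false = true → y.getD i false = true := by
    intro i hi
    by_cases hix : i < x.length
    · have hiy : i < y.length := hl ▸ hix
      rw [List.getD_eq_getElem _ _ hix] at hi
      rw [List.getD_eq_getElem _ _ hiy]
      have h1 := List.Forall₂.get h hix hiy
      simp only [List.get_eq_getElem] at h1
      rw [hi] at h1
      exact top_le_iff.1 h1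
    · rw [List.getD_eq_default _ _ (not_lt.1 hix)] at hi
      exact absurd hi (by simp)
  obtain ⟨S, h1, h2, h3⟩ := hx
  rw [hl] at h1 h2
  have hent : ∀ i j, entry x i j = true → entry y i j = true := by
    intro i j hij
    unfold entry at hij ⊢
    rw [← hl]
    exact hxy _ hij
  have hle : ((Finset.range (Nat.sqrt y.length)).filter fun i => entry y i i = false).card ≤
      S.card := by
    rw [h2]
    apply Finset.card_le_card
    intro i hi
    rw [Finset.mem_filter] at hi ⊢
    refine ⟨hi.1, ?_⟩
    by_contra hc
    rw [Bool.not_eq_false] at hc
    rw [hent i i hc] at hi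
    exact absurd hi.2 (by simp)
  obtain ⟨S', hS', hc⟩ := Finset.exists_subset_card_eq hle
  exact ⟨S', fun i hi => h1 i (hS' hi), hc,
    fun i hi j hj hij => hent i j (h3 i (hS' hi) j (hS' hj) hij)⟩

end Pool.Agent.H7N
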