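import Pool.Agent.H7N.Main

/-!
Choice of the parameters.
-/

namespace Pool.Agent.H7N

open Finset Pool.Agent.H24

/-- the probability estimate for large cliques of the noise -/
theorem clique_estimate {V k l lg : ℕ} (hV : V < 2 ^ (lg + 1)) (hl : 1 ≤ l)
    (hk : 2 * l ^ 2 * (lg + 2) + 1 ≤ k) :
    (V : ℝ) ^ k * (1 - 1 / ((l ^ 2 : ℕ) : ℝ)) ^ (k * (k - 1) / 2) ≤ 1 / 2 := by
  have hl2 : (0:ℝ) < ((l ^ 2 : ℕ) : ℝ) := by positivity
  have hl1 : (1:ℝ) ≤ ((l ^ 2 : ℕ) : ℝ) := by exact_mod_cast Nat.one_le_pow 2 l hl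
  set p : ℝ := 1 - 1 / ((l ^ 2 : ℕ) : ℝ) with hp
  have hp0 : 0 ≤ p := by
    rw [hp, sub_nonneg, div_le_one hl2]
    exact hl1
  have hk1 : 1 ≤ k := by omega
  -- p ^ (l^2) ≤ 1/2 ... we use p ^ (l^2) ≤ exp (-1)
  have hpe : p ≤ Real.exp (-(1 / ((l ^ 2 : ℕ) : ℝ))) := by
    have := Real.add_one_le_exp (-(1 / ((l ^ 2 : ℕ) : ℝ)))
    rw [hp]
    linarith
  have hpl : p ^ (l ^ 2) ≤ 1 / 2 := by
    have h1 : p ^ (l ^ 2) ≤ (Real.exp (-(1 / ((l ^ 2 : ℕ) : ℝ)))) ^ (l ^ 2) :=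
      pow_le_pow_left₀ hp0 hpe _
    have h2 : (Real.exp (-(1 / ((l ^ 2 : ℕ) : ℝ)))) ^ (l ^ 2) = Real.exp (-1) := by
      rw [← Real.exp_nat_mul]
      congr 1
      field_simp
    rw [h2] at h1
    have h3 : Real.exp (-1) ≤ 1 / 2 := by
      rw [Real.exp_neg, one_div]
      apply inv_anti₀ (by norm_num)
      have := Real.add_one_le_exp (1:ℝ)
      linarith
    exact h1.trans h3
  have hexp : l ^ 2 * (lg + 2) * k ≤ k * (k - 1) / 2 := by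
    rw [Nat.le_div_iff_mul_le (by norm_num)]
    have h1 : 2 * l ^ 2 * (lg + 2) ≤ k - 1 := by omega
    calc l ^ 2 * (lg + 2) * k * 2 = k * (2 * l ^ 2 * (lg + 2)) := by ring
      _ ≤ k * (k - 1) := Nat.mul_le_mul_left _ h1
  have hp1 : p ≤ 1 := by
    rw [hp]
    have : (0:ℝ) ≤ 1 / ((l ^ 2 : ℕ) : ℝ) := by positivity
    linarith
  have h4 : p ^ (k * (k - 1) / 2) ≤ (1 / 2 : ℝ) ^ ((lg + 2) * k) := by
    calc p ^ (k * (k - 1) / 2) ≤ p ^ (l ^ 2 * (lg + 2) * k) :=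
          pow_le_pow_of_le_one hp0 hp1 hexp
      _ = (p ^ (l ^ 2)) ^ ((lg + 2) * k) := by rw [← pow_mul, mul_assoc]
      _ ≤ (1 / 2 : ℝ) ^ ((lg + 2) * k) := pow_le_pow_left₀ (pow_nonneg hp0 _) hpl _
  have h5 : (V : ℝ) ^ k ≤ (2 : ℝ) ^ ((lg + 1) * k) := by
    rw [pow_mul]
    apply pow_le_pow_left₀ (by positivity)
    exact_mod_cast hV.le
  calc (V : ℝ) ^ k * p ^ (k * (k - 1) / 2)
      ≤ (2 : ℝ) ^ ((lg + 1) * k) * (1 / 2 : ℝ) ^ ((lg + 2) * k) := by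
        apply mul_le_mul h5 h4 (pow_nonneg hp0 _) (by positivity)
    _ = (1 / 2 : ℝ) ^ k := by
        have : (lg + 2) * k = (lg + 1) * k + k := by ring
        rw [this, pow_add, ← mul_assoc, ← mul_pow]
        norm_num
    _ ≤ 1 / 2 := by
        calc (1 / 2 : ℝ) ^ k ≤ (1 / 2 : ℝ) ^ 1 :=
              pow_le_pow_of_le_one (by norm_num) (by norm_num) hk1
          _ = 1 / 2 := by norm_num

theorem clique_family {V k s t M : ℕ} (hV : 2 ≤ V) (hs : Nat.log 2 V ≤ s)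
    (hk : 1000 * s ^ 2 * Nat.log 2 V ≤ k) (hkV : 1000 * k ^ 4 ≤ V)
    (hM : 100 * M * k ^ 4 ≤ V ^ 2)
    {ι : Type} (H : Finset ι) (hcard : H.card ≤ M) (𝒢 : ι → (Edge V → Bool) → Bool)
    (h𝒢 : ∀ p, ∃ L' : List ((Edge V → Bool) → Bool), Circuit t 0 L' ∧ Source L' (𝒢 p))
    {F : (Edge V → Bool) → Bool}
    (hdiff : ∀ x y : Edge V → Bool, F x ≠ F y → ∃ p ∈ H, 𝒢 p x ≠ 𝒢 p y)
    (hclq : ∀ x : Edge V → Bool, F x = true ↔ ¬ (toGraph x).CliqueFree k) :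
    2 ^ s ≤ t := by
  by_contra hcon
  push Not at hcon
  set lg := Nat.log 2 V with hlg
  have hlg1 : 1 ≤ lg := Nat.log_pos (by norm_num) hV
  have hVlt : V < 2 ^ (lg + 1) := Nat.lt_pow_succ_log_self (by norm_num) V
  have hs1 : 1 ≤ s := hlg1.trans hs
  obtain ⟨l, hl⟩ : ∃ l, l = s + 2 * lg + 3 := ⟨_, rfl⟩
  have hl6 : l ≤ 6 * s := by omega
  have hl3 : 3 ≤ l := by omega
  have hl2 : l ^ 2 ≤ 36 * s ^ 2 := by
    calc l ^ 2 ≤ (6 * s) ^ 2 := Nat.pow_le_pow_left hl6 2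
      _ = 36 * s ^ 2 := by ring
  obtain ⟨m, hm⟩ : ∃ m, m = (lg + 3) * l := ⟨_, rfl⟩
  obtain ⟨w, hw⟩ : ∃ w, w = 4 * l * m := ⟨_, rfl⟩
  have hwk : w ≤ k := by
    calc w = 4 * (lg + 3) * l ^ 2 := by rw [hw, hm]; ring
      _ ≤ 4 * (4 * lg) * (36 * s ^ 2) := by
          apply Nat.mul_le_mul _ hl2
          omega
      _ = 576 * s ^ 2 * lg := by ring
      _ ≤ 1000 * s ^ 2 * lg := by
          apply Nat.mul_le_mul_right
          apply Nat.mul_le_mul_right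
          norm_num
      _ ≤ k := hk
  have hk1 : 1 ≤ k := by
    have : 1 ≤ 1000 * s ^ 2 * lg := by
      have : 1 ≤ s ^ 2 := Nat.one_le_pow 2 s hs1
      nlinarith
    omega
  have hkw : k * w ≤ k ^ 2 := by
    rw [pow_two]
    exact Nat.mul_le_mul_left k hwk
  have hk2 : 1 ≤ k ^ 2 := Nat.one_le_pow 2 k hk1
  have hk4 : k ^ 4 = k ^ 2 * k ^ 2 := by ring
  -- the prime
  obtain ⟨n0, hn0⟩ : ∃ n0, n0 = V / (2 * k ^ 2) := ⟨_, rfl⟩
  have hn0k : k ^ 2 ≤ n0 := by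
    rw [hn0, Nat.le_div_iff_mul_le (by positivity)]
    nlinarith
  obtain ⟨q, hq, hnq, hq2⟩ := Nat.exists_prime_lt_and_le_two_mul n0 (by omega)
  have hq_le : k ^ 2 * q ≤ V := by
    calc k ^ 2 * q ≤ k ^ 2 * (2 * n0) := Nat.mul_le_mul_left _ hq2
      _ = 2 * k ^ 2 * n0 := by ring
      _ ≤ V := by rw [hn0]; exact Nat.mul_div_le V (2 * k ^ 2)
  have hkwq : k * w ≤ q := hkw.trans (hn0k.trans hnq.le)
  have hkwqV : k * w * q ≤ V := (Nat.mul_le_mul_right q hkw).trans hq_le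
  have hVq : V < 2 * k ^ 2 * (n0 + 1) := by
    rw [hn0]
    exact Nat.lt_mul_div_succ V (by positivity)
  have hVq' : V ≤ 2 * k ^ 2 * q := by
    have : n0 + 1 ≤ q := hnq
    exact hVq.le.trans (Nat.mul_le_mul_left _ this)
  -- the hypothesis on M
  have h7 : 8 * M < q ^ 2 := by
    have h1 : V ^ 2 ≤ 4 * k ^ 4 * q ^ 2 := by
      calc V ^ 2 ≤ (2 * k ^ 2 * q) ^ 2 := Nat.pow_le_pow_left hVq' 2
        _ = 4 * k ^ 4 * q ^ 2 := by ring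
    have h2 : 100 * M * k ^ 4 ≤ 4 * k ^ 4 * q ^ 2 := hM.trans h1
    have hk4' : 0 < k ^ 4 := by positivity
    have h3 : k ^ 4 * (100 * M) ≤ k ^ 4 * (4 * q ^ 2) := by
      calc k ^ 4 * (100 * M) = 100 * M * k ^ 4 := by ring
        _ ≤ 4 * k ^ 4 * q ^ 2 := h2
        _ = k ^ 4 * (4 * q ^ 2) := by ring
    have h4 : 100 * M ≤ 4 * q ^ 2 := Nat.le_of_mul_le_mul_left h3 hk4'
    have h5 : 0 < q ^ 2 := pow_pos hq.pos 2
    omega
  have hqV : q ≤ V := by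
    calc q = 1 * q := (one_mul q).symm
      _ ≤ k ^ 2 * q := Nat.mul_le_mul_right q hk2
      _ ≤ V := hq_le
  have h6 : 2 * t * q ^ 2 ≤ 2 ^ l := by
    have h1 : q ^ 2 ≤ 2 ^ (2 * lg + 2) := by
      calc q ^ 2 ≤ (2 ^ (lg + 1)) ^ 2 := Nat.pow_le_pow_left (hqV.trans hVlt.le) 2
        _ = 2 ^ (2 * lg + 2) := by rw [← pow_mul]; congr 1; ring
    calc 2 * t * q ^ 2 ≤ 2 * 2 ^ s * 2 ^ (2 * lg + 2) :=
          Nat.mul_le_mul (Nat.mul_le_mul_left 2 hcon.le) h1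
      _ = 2 ^ l := by rw [hl]; ring
  have hkwV : k * w + 1 ≤ 2 ^ (lg + 1) := by
    have h1 : k * w + 1 ≤ V := by
      have hw1 : 1 ≤ w := by
        rw [hw, hm]
        have : 1 ≤ l := by omega
        have h2 : 1 ≤ (lg + 3) * l := Nat.mul_pos (by omega) (by omega)
        have : 1 ≤ 4 * l := by omega
        exact Nat.mul_pos this h2
      have h2 : 1 ≤ k * w := Nat.mul_pos hk1 hw1
      calc k * w + 1 ≤ k * w * 2 := by omega
        _ ≤ k * w * q := Nat.mul_le_mul_left _ hq.two_le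
        _ ≤ V := hkwqV
    exact h1.trans hVlt.le
  have h5 : 6 * (t + (k * w + 1) ^ 2) * (k * w + 1) ^ l ≤ 2 ^ m := by
    have h1 : (k * w + 1) ^ 2 ≤ 2 ^ (2 * lg + 2) := by
      calc (k * w + 1) ^ 2 ≤ (2 ^ (lg + 1)) ^ 2 := Nat.pow_le_pow_left hkwV 2
        _ = 2 ^ (2 * lg + 2) := by rw [← pow_mul]; congr 1; ring
    have h2 : (k * w + 1) ^ l ≤ 2 ^ ((lg + 1) * l) := by
      calc (k * w + 1) ^ l ≤ (2 ^ (lg + 1)) ^ l := Nat.pow_le_pow_left hkwV l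
        _ = 2 ^ ((lg + 1) * l) := by rw [← pow_mul]
    have h3 : t + (k * w + 1) ^ 2 ≤ 2 ^ (s + 2 * lg + 3) := by
      have a1 : 2 ^ s ≤ 2 ^ (s + 2 * lg + 2) := Nat.pow_le_pow_right (by norm_num) (by omega)
      have a2 : 2 ^ (2 * lg + 2) ≤ 2 ^ (s + 2 * lg + 2) :=
        Nat.pow_le_pow_right (by norm_num) (by omega)
      have a3 : 2 ^ (s + 2 * lg + 3) = 2 ^ (s + 2 * lg + 2) + 2 ^ (s + 2 * lg + 2) := by ring
      omega
    calc 6 * (t + (k * w + 1) ^ 2) * (k * w + 1) ^ l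
        ≤ 8 * 2 ^ (s + 2 * lg + 3) * 2 ^ ((lg + 1) * l) := by
          apply Nat.mul_le_mul _ h2
          exact Nat.mul_le_mul (by norm_num) h3
      _ = 2 ^ (l + 3 + (lg + 1) * l) := by rw [hl]; ring
      _ ≤ 2 ^ m := by
          apply Nat.pow_le_pow_right (by norm_num)
          rw [hm]
          nlinarith
  have hkest : 2 * l ^ 2 * (lg + 2) + 1 ≤ k := by
    have h1 : 2 * l ^ 2 * (lg + 2) ≤ 216 * s ^ 2 * lg := by
      calc 2 * l ^ 2 * (lg + 2) ≤ 2 * (36 * s ^ 2) * (3 * lg) :=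
            Nat.mul_le_mul (Nat.mul_le_mul_left 2 hl2) (by omega)
        _ = 216 * s ^ 2 * lg := by ring
    have h2 : 1 ≤ s ^ 2 * lg := Nat.mul_pos (Nat.one_le_pow 2 s hs1) hlg1
    have h3 : 1000 * s ^ 2 * lg = 1000 * (s ^ 2 * lg) := by ring
    have h4 : 216 * s ^ 2 * lg = 216 * (s ^ 2 * lg) := by ring
    omega
  have hw0 : 0 < w := by
    rw [hw, hm]
    have h2 : 1 ≤ (lg + 3) * l := Nat.mul_pos (by omega) (by omega)
    exact Nat.mul_pos (by omega) h2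
  exact core (N := l ^ 2) hq hkwq hkwqV (by omega) le_rfl
    (clique_estimate hVlt (by omega) hkest) (by rw [hw]) hw0 h5 h6 h7 H hcard 𝒢 h𝒢 hdiff hclq

end Pool.Agent.H7N
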